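import Pool.Agent.MOZ.Hom
import Pool.Agent.MX.Defs

/-!
# MOZ-Appr: approximation of subspaces of `L_1` by subspaces of `l_1`

`N x = ∫ |∑ x_j f_j| dμ` is a seminorm, a norm since `B = {N ≤ 1}` is bounded; `c ‖x‖ ≤ N x`, `c > 0`. `appr_ex`: given `η > 0` take integrable
simple functions `g_j` with `∫ |f_j - g_j| dμ ≤ η c/(n+1)` (`Integrable.exists_simpleFunc...`, density of simple functions in `L¹`,
`SimpleFunc`; `MemLp`/`SimpleFunc.denselyDefined`-type lemmas); `g = (g_1,...,g_n)` is a simple function with values in `Fin n → ℝ`; let `v_1..v_M` be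
its nonzero values, `a_i = μ(g = v_i) v_i`: `∫ |∑ x_j g_j| dμ = ∑_i |⟨a_i, x⟩| = nf a x` and `|N x - nf a x| ≤ η c ‖x‖ ≤ η N x`.
`appr`: `η` with `((1+η)/(1-η))^n ≤ 2`, `η < 1`: `Nd a` since `nf a x ≥ (1-η) N x`, `K = {nf a ≤ 1}`: `B ⊆ (1+η) • K`, `K ⊆ (1-η)⁻¹ • B`, so
`volume (t(1+η) K) ≤ 2 volume (t B)` and `maxF B f ≤ 2 maxF K f` pointwise; `Bdd p (2 C) B`.
-/

set_option autoImplicit false

open MeasureTheory Set Pool.Agent.MO
open scoped ENNReal NNReal Pointwise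

namespace Pool.Agent.MOZ

/-- the seminorm -/
private noncomputable def apN {Ω : Type} [MeasurableSpace Ω] (μ : Measure Ω) {n : ℕ}
    (f : Fin n → Ω → ℝ) (x : Fin n → ℝ) : ℝ := ∫ ω, |∑ j, x j * f j ω| ∂μ

private theorem apN_nonneg {Ω : Type} [MeasurableSpace Ω] (μ : Measure Ω) {n : ℕ}
    (f : Fin n → Ω → ℝ) (x : Fin n → ℝ) : 0 ≤ apN μ f x :=
  integral_nonneg fun _ => abs_nonneg _

private theorem apN_smul {Ω : Type} [MeasurableSpace Ω] (μ : Measure Ω) {n : ℕ}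
    (f : Fin n → Ω → ℝ) (t : ℝ) (x : Fin n → ℝ) : apN μ f (t • x) = |t| * apN μ f x := by
  unfold apN
  rw [← integral_const_mul]
  refine integral_congr_ae (Filter.Eventually.of_forall fun ω => ?_)
  show |∑ j, (t • x) j * f j ω| = |t| * |∑ j, x j * f j ω|
  rw [← abs_mul, Finset.mul_sum]
  congr 1
  refine Finset.sum_congr rfl fun j _ => ?_
  rw [Pi.smul_apply, smul_eq_mul, mul_assoc]

private theorem apN_lower {Ω : Type} [MeasurableSpace Ω] (μ : Measure Ω) {n : ℕ}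
    (f : Fin n → Ω → ℝ) (hB : IsCompact {x : Fin n → ℝ | apN μ f x ≤ 1}) :
    ∃ R : ℝ, 0 < R ∧ ∀ x : Fin n → ℝ, ‖x‖ ≤ R * apN μ f x := by
  obtain ⟨R, hR, hRB⟩ := hB.isBounded.exists_pos_norm_le
  refine ⟨R, hR, fun x => ?_⟩
  refine le_of_forall_pos_le_add fun δ hδ => ?_
  have h0 := apN_nonneg μ f x
  have hε : 0 < δ / R := by positivity
  have hpos : 0 < apN μ f x + δ / R := by positivity
  have h1 : apN μ f ((apN μ f x + δ / R)⁻¹ • x) ≤ 1 := by
    rw [apN_smul, abs_of_pos (inv_pos.2 hpos), inv_mul_le_iff₀ hpos, mul_one]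
    linarith
  have h2 := hRB _ h1
  rw [norm_smul, Real.norm_eq_abs, abs_of_pos (inv_pos.2 hpos), inv_mul_le_iff₀ hpos] at h2
  have h3 : (apN μ f x + δ / R) * R = R * apN μ f x + δ := by
    field_simp
  linarith

private theorem ap_vec {Ω : Type} [MeasurableSpace Ω] (μ : Measure Ω) {n : ℕ}
    (f : Fin n → Ω → ℝ) (hf : ∀ j, Integrable (f j) μ) :
    Integrable (fun ω => (fun j => f j ω : Fin n → ℝ)) μ := by
  classical
  have h := integrable_finsetSum (μ := μ) Finset.univ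
    (fun j _ => (hf j).smul_const (Pi.single j (1 : ℝ) : Fin n → ℝ))
  refine h.congr (Filter.Eventually.of_forall fun ω => ?_)
  funext k
  show (∑ j, f j ω • (Pi.single j (1 : ℝ) : Fin n → ℝ)) k = f k ω
  rw [Finset.sum_apply, Finset.sum_eq_single k]
  · rw [Pi.smul_apply, Pi.single_eq_same, smul_eq_mul, mul_one]
  · intro j _ hj
    rw [Pi.smul_apply, Pi.single_eq_of_ne (Ne.symm hj), smul_zero]
  · intro h
    exact absurd (Finset.mem_univ k) h

private theorem ap_simple {Ω : Type} [MeasurableSpace Ω] (μ : Measure Ω) {n : ℕ}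
    (G : SimpleFunc Ω (Fin n → ℝ)) (hG : Integrable G μ) :
    ∃ (M : ℕ) (a : Fin M → Fin n → ℝ), ∀ x, nf a x = ∫ ω, |∑ j, x j * G ω j| ∂μ := by
  classical
  refine ⟨G.range.card, fun i j => μ.real (G ⁻¹' {((G.range.equivFin.symm i : G.range) : Fin n → ℝ)}) *
    ((G.range.equivFin.symm i : G.range) : Fin n → ℝ) j, fun x => ?_⟩
  have h0 : (fun v : Fin n → ℝ => |∑ j, x j * v j|) 0 = 0 := by
    simp
  have h1 := SimpleFunc.map_integral G (fun v : Fin n → ℝ => |∑ j, x j * v j|) hG h0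
  have hint : Integrable (G.map (fun v : Fin n → ℝ => |∑ j, x j * v j|)) μ := by
    have h2 : Integrable (fun ω => |∑ j, x j * G ω j|) μ := by
      refine Integrable.abs (integrable_finsetSum _ fun j _ => ?_)
      refine Integrable.const_mul ?_ (x j)
      exact hG.eval j
    exact h2
  have h3 := SimpleFunc.integral_eq_integral (G.map (fun v : Fin n → ℝ => |∑ j, x j * v j|)) hint
  have h4 : ∫ ω, |∑ j, x j * G ω j| ∂μ =
      ∫ ω, (G.map (fun v : Fin n → ℝ => |∑ j, x j * v j|)) ω ∂μ := rfl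
  rw [h4, ← h3, h1]
  unfold nf
  rw [← Finset.sum_coe_sort G.range (fun v => μ.real (G ⁻¹' {v}) • |∑ j, x j * v j|),
    ← Equiv.sum_comp G.range.equivFin.symm]
  refine Finset.sum_congr rfl fun i _ => ?_
  rw [smul_eq_mul, ← abs_of_nonneg (measureReal_nonneg (μ := μ)
    (s := G ⁻¹' {((G.range.equivFin.symm i : G.range) : Fin n → ℝ)})), ← abs_mul, Finset.mul_sum]
  congr 1
  refine Finset.sum_congr rfl fun j _ => ?_
  dsimp only
  ring

private theorem ap_bound {n : ℕ} (x v : Fin n → ℝ) : |∑ j, x j * v j| ≤ n * ‖x‖ * ‖v‖ := by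
  refine (Finset.abs_sum_le_sum_abs _ _).trans ?_
  have h1 : ∀ j ∈ (Finset.univ : Finset (Fin n)), |x j * v j| ≤ ‖x‖ * ‖v‖ := by
    intro j _
    rw [abs_mul]
    exact mul_le_mul (norm_le_pi_norm x j) (norm_le_pi_norm v j) (abs_nonneg _) (norm_nonneg _)
  refine (Finset.sum_le_sum h1).trans ?_
  rw [Finset.sum_const, Finset.card_univ, Fintype.card_fin, nsmul_eq_mul]
  exact le_of_eq (by ring)

theorem appr_ex {Ω : Type} [MeasurableSpace Ω] (μ : Measure Ω) {n : ℕ} (f : Fin n → Ω → ℝ)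
    (hf : ∀ j, Integrable (f j) μ) (hB : IsCompact {x : Fin n → ℝ | ∫ ω, |∑ j, x j * f j ω| ∂μ ≤ 1})
    {η : ℝ} (hη : 0 < η) :
    ∃ (M : ℕ) (a : Fin M → Fin n → ℝ), ∀ x,
      |nf a x - ∫ ω, |∑ j, x j * f j ω| ∂μ| ≤ η * ∫ ω, |∑ j, x j * f j ω| ∂μ := by
  obtain ⟨R, hR, hlow⟩ := apN_lower μ f hB
  have hn : (0 : ℝ) < n + 1 := by positivity
  set δ : ℝ := η / (R * (n + 1)) with hδ
  have hδ0 : 0 < δ := by positivity
  have hF := ap_vec μ f hf
  obtain ⟨G, hG1, hG2⟩ := ((memLp_one_iff_integrable.2 hF).exists_simpleFunc_eLpNorm_sub_lt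
    ENNReal.one_ne_top (ε := ENNReal.ofReal δ) (by simpa using hδ0))
  have hGi : Integrable G μ := memLp_one_iff_integrable.1 hG2
  obtain ⟨M, a, ha⟩ := ap_simple μ G hGi
  refine ⟨M, a, fun x => ?_⟩
  rw [ha x]
  have hd : Integrable (fun ω => (fun j => f j ω : Fin n → ℝ) - G ω) μ := hF.sub hGi
  have h1 : ∫ ω, ‖(fun j => f j ω : Fin n → ℝ) - G ω‖ ∂μ ≤ δ := by
    rw [integral_norm_eq_lintegral_enorm hd.1]
    rw [eLpNorm_one_eq_lintegral_enorm] at hG1
    refine ENNReal.toReal_le_of_le_ofReal hδ0.le hG1.le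
  have hi1 : Integrable (fun ω => |∑ j, x j * G ω j|) μ :=
    Integrable.abs (integrable_finsetSum _ fun j _ => (hGi.eval j).const_mul (x j))
  have hi2 : Integrable (fun ω => |∑ j, x j * f j ω|) μ :=
    Integrable.abs (integrable_finsetSum _ fun j _ => (hf j).const_mul (x j))
  rw [← integral_sub hi1 hi2]
  refine (abs_integral_le_integral_abs).trans ?_
  have h2 : ∫ ω, |(|∑ j, x j * G ω j| - |∑ j, x j * f j ω|)| ∂μ ≤
      ∫ ω, n * ‖x‖ * ‖(fun j => f j ω : Fin n → ℝ) - G ω‖ ∂μ := by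
    refine integral_mono (hi1.sub hi2).abs (hd.norm.const_mul _) fun ω => ?_
    refine (abs_abs_sub_abs_le_abs_sub _ _).trans ?_
    have h3 : ∑ j, x j * G ω j - ∑ j, x j * f j ω =
        -(∑ j, x j * ((fun j => f j ω : Fin n → ℝ) - G ω) j) := by
      rw [← Finset.sum_sub_distrib, ← Finset.sum_neg_distrib]
      refine Finset.sum_congr rfl fun j _ => ?_
      rw [Pi.sub_apply]
      ring
    rw [h3, abs_neg]
    exact ap_bound x _
  refine h2.trans ?_
  rw [integral_const_mul]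
  have h4 := hlow x
  have h5 := apN_nonneg μ f x
  have h6 : n * ‖x‖ * ∫ ω, ‖(fun j => f j ω : Fin n → ℝ) - G ω‖ ∂μ ≤ n * ‖x‖ * δ :=
    mul_le_mul_of_nonneg_left h1 (by positivity)
  refine h6.trans ?_
  have h7 : n * ‖x‖ * δ ≤ (n + 1) * (R * apN μ f x) * δ := by
    gcongr
    linarith
  refine h7.trans (le_of_eq ?_)
  rw [hδ]
  unfold apN
  field_simp

private theorem ap_eta (n : ℕ) : ∃ η : ℝ, 0 < η ∧ η < 1 ∧ ((1 + η) / (1 - η)) ^ n ≤ 2 := by
  have hc : ContinuousAt (fun η : ℝ => ((1 + η) / (1 - η)) ^ n) 0 := by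
    refine ContinuousAt.pow (ContinuousAt.div ?_ ?_ ?_) n
    · exact (continuous_const.add continuous_id).continuousAt
    · exact (continuous_const.sub continuous_id).continuousAt
    · norm_num
  have h1 : (fun η : ℝ => ((1 + η) / (1 - η)) ^ n) 0 < 2 := by
    norm_num
  have h2 := hc.eventually (gt_mem_nhds h1)
  obtain ⟨ε, hε, hball⟩ := Metric.eventually_nhds_iff.1 h2
  refine ⟨min (ε / 2) (1 / 2), by positivity, ?_, ?_⟩
  · exact lt_of_le_of_lt (min_le_right _ _) (by norm_num)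
  · refine (hball ?_).le
    rw [Real.dist_eq, sub_zero, abs_of_pos (by positivity)]
    exact lt_of_le_of_lt (min_le_left _ _) (by linarith)

private theorem ap_max {n : ℕ} {B K : Set (Fin n → ℝ)} {s : ℝ} (hs : 0 < s)
    (h1 : ∀ x ∈ B, s⁻¹ • x ∈ K) (h2 : volume (s • K) ≤ 2 * volume B) (f : (Fin n → ℝ) → ℝ)
    (x : Fin n → ℝ) : MX.maxF B f x ≤ 2 * MX.maxF K f x := by
  unfold MX.maxF
  refine iSup₂_le fun t ht => ?_
  have hsub : t • B ⊆ (t * s) • K := by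
    rintro _ ⟨y, hy, rfl⟩
    refine ⟨s⁻¹ • y, h1 y hy, ?_⟩
    show (t * s) • s⁻¹ • y = t • y
    rw [smul_smul, mul_assoc, mul_inv_cancel₀ hs.ne', mul_one]
  have hts : 0 < t * s := mul_pos ht hs
  have hvol : volume ((t * s) • K) ≤ 2 * volume (t • B) := by
    rw [mul_smul, Measure.addHaar_smul volume t (s • K), Measure.addHaar_smul volume t B]
    calc ENNReal.ofReal |t ^ Module.finrank ℝ (Fin n → ℝ)| * volume (s • K)
        ≤ ENNReal.ofReal |t ^ Module.finrank ℝ (Fin n → ℝ)| * (2 * volume B) := by gcongr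
      _ = 2 * (ENNReal.ofReal |t ^ Module.finrank ℝ (Fin n → ℝ)| * volume B) := by ring
  have h3 : (∫⁻ y in t • B, ‖f (x + y)‖ₑ) / volume (t • B) ≤
      2 * ((∫⁻ y in (t * s) • K, ‖f (x + y)‖ₑ) / volume ((t * s) • K)) := by
    have h4 : (volume (t • B))⁻¹ ≤ 2 * (volume ((t * s) • K))⁻¹ := by
      have h5 : (2 * volume (t • B))⁻¹ ≤ (volume ((t * s) • K))⁻¹ := ENNReal.inv_le_inv.2 hvol
      have h6 : (volume (t • B))⁻¹ = 2 * (2 * volume (t • B))⁻¹ := by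
        rw [ENNReal.mul_inv (Or.inl (by norm_num)) (Or.inl (by norm_num)), ← mul_assoc,
          ENNReal.mul_inv_cancel (by norm_num) (by norm_num), one_mul]
      rw [h6]
      gcongr
    rw [div_eq_mul_inv, div_eq_mul_inv]
    calc (∫⁻ y in t • B, ‖f (x + y)‖ₑ) * (volume (t • B))⁻¹
        ≤ (∫⁻ y in (t * s) • K, ‖f (x + y)‖ₑ) * (2 * (volume ((t * s) • K))⁻¹) := by
          gcongr
      _ = 2 * ((∫⁻ y in (t * s) • K, ‖f (x + y)‖ₑ) * (volume ((t * s) • K))⁻¹) := by ring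
  refine h3.trans ?_
  gcongr
  exact le_iSup₂ (f := fun (t : ℝ) (_ : 0 < t) =>
    (∫⁻ y in t • K, ‖f (x + y)‖ₑ) / volume (t • K)) (t * s) hts

theorem appr {Ω : Type} [MeasurableSpace Ω] (μ : Measure Ω) {n : ℕ} (f : Fin n → Ω → ℝ)
    (hf : ∀ j, Integrable (f j) μ) (hB : IsCompact {x : Fin n → ℝ | ∫ ω, |∑ j, x j * f j ω| ∂μ ≤ 1})
    {p : ℝ} (hp : 1 < p) {C : ℝ≥0}
    (h : ∀ (M : ℕ) (a : Fin M → Fin n → ℝ), Nd a → MX.Bdd p (C : ℝ≥0∞) {x | nf a x ≤ 1}) :
    MX.Bdd p ((2 * C : ℝ≥0) : ℝ≥0∞) {x : Fin n → ℝ | ∫ ω, |∑ j, x j * f j ω| ∂μ ≤ 1} := by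
  obtain ⟨η, hη0, hη1, hη2⟩ := ap_eta n
  obtain ⟨M, a, ha⟩ := appr_ex μ f hf hB hη0
  obtain ⟨R, hR, hlow⟩ := apN_lower μ f hB
  have hlo : ∀ x, (1 - η) * apN μ f x ≤ nf a x := by
    intro x
    have h1 := (abs_le.1 (ha x)).1
    unfold apN
    linarith
  have hup : ∀ x, nf a x ≤ (1 + η) * apN μ f x := by
    intro x
    have h1 := (abs_le.1 (ha x)).2
    unfold apN
    linarith
  have hη3 : 0 < 1 - η := by linarith
  have hnd : Nd a := by
    intro x hx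
    have h1 : nf a x = 0 := by
      unfold nf
      refine Finset.sum_eq_zero fun i _ => ?_
      rw [hx i, abs_zero]
    have h2 := hlo x
    rw [h1] at h2
    have h3 : apN μ f x ≤ 0 := by
      by_contra hcon
      push Not at hcon
      have := mul_pos hη3 hcon
      linarith
    have h4 := hlow x
    have h5 : ‖x‖ ≤ 0 := h4.trans (mul_nonpos_of_nonneg_of_nonpos hR.le h3)
    exact norm_le_zero_iff.1 h5
  have hbdd := h M a hnd
  have hmax : ∀ g : (Fin n → ℝ) → ℝ, ∀ x,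
      MX.maxF {x : Fin n → ℝ | ∫ ω, |∑ j, x j * f j ω| ∂μ ≤ 1} g x ≤
        2 * MX.maxF {x | nf a x ≤ 1} g x := by
    intro g x
    have hs : (0 : ℝ) < 1 + η := by linarith
    refine ap_max hs ?_ ?_ g x
    · intro y hy
      have hy' : apN μ f y ≤ 1 := hy
      show nf a ((1 + η)⁻¹ • y) ≤ 1
      rw [nf_smul, abs_of_pos (inv_pos.2 hs), inv_mul_le_iff₀ hs, mul_one]
      refine (hup y).trans ?_
      nlinarith
    · have hsub : (1 + η) • {x | nf a x ≤ 1} ⊆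
          ((1 + η) / (1 - η)) • {x : Fin n → ℝ | ∫ ω, |∑ j, x j * f j ω| ∂μ ≤ 1} := by
        rintro _ ⟨y, hy, rfl⟩
        refine ⟨(1 - η) • y, ?_, ?_⟩
        · show apN μ f ((1 - η) • y) ≤ 1
          rw [apN_smul, abs_of_pos hη3]
          exact (hlo y).trans hy
        · show ((1 + η) / (1 - η)) • (1 - η) • y = (1 + η) • y
          rw [smul_smul, div_mul_cancel₀ _ hη3.ne']
      refine (measure_mono hsub).trans ?_
      rw [Measure.addHaar_smul]
      gcongr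
      have h6 : Module.finrank ℝ (Fin n → ℝ) = n := by
        rw [Module.finrank_fintype_fun_eq_card, Fintype.card_fin]
      rw [h6, abs_of_pos (by positivity)]
      refine (ENNReal.ofReal_le_ofReal hη2).trans ?_
      norm_num
  intro g hg
  have hp0 : 0 < p := by linarith
  calc ∫⁻ x, MX.maxF {x : Fin n → ℝ | ∫ ω, |∑ j, x j * f j ω| ∂μ ≤ 1} g x ^ p
      ≤ ∫⁻ x, (2 * MX.maxF {x | nf a x ≤ 1} g x) ^ p := by
        refine lintegral_mono fun x => ?_
        exact ENNReal.rpow_le_rpow (hmax g x) hp0.le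
    _ = ∫⁻ x, 2 ^ p * MX.maxF {x | nf a x ≤ 1} g x ^ p := by
        refine lintegral_congr fun x => ?_
        rw [ENNReal.mul_rpow_of_nonneg _ _ hp0.le]
    _ = 2 ^ p * ∫⁻ x, MX.maxF {x | nf a x ≤ 1} g x ^ p := by
        rw [lintegral_const_mul' _ _ (by
          exact ENNReal.rpow_ne_top_of_nonneg hp0.le (by norm_num))]
    _ ≤ 2 ^ p * ((C : ℝ≥0∞) ^ p * ∫⁻ x, ‖g x‖ₑ ^ p) := by
        gcongr
        exact hbdd g hg
    _ = ((2 * C : ℝ≥0) : ℝ≥0∞) ^ p * ∫⁻ x, ‖g x‖ₑ ^ p := by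
        rw [← mul_assoc, ← ENNReal.mul_rpow_of_nonneg _ _ hp0.le]
        congr 2

end Pool.Agent.MOZ
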