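import Pool.Agent.MOZ.Defs

/-!
# MOZ-Hom: homogeneous potentials

`N = nf a` is a norm (`Nd a`), continuous, `N x ≥ c ‖x‖` with `c > 0` (compactness of the sphere), so `{N ≤ 1}` is compact,
`exp(-N)` is integrable (`≤ exp(-c‖x‖)`; e.g. from `measure_lt_one_eq_integral_div_gamma`, or compare with
`∏ exp(-(c/n)|x_j|)`), positive integral. `hom_vol`: `{N ≤ u} = u • {N ≤ 1}` for `u > 0`, `{0}` for `u = 0`
(`Measure.addHaar_smul`). `hom_var`: for `s > 0`: `I(s) = ∫ exp(-s N) = s^(-n) I(1)` (`Measure.integral_comp_smul`). Differentiate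
twice under the integral at `s = 1` (dominated by `N² exp(-N/2)`), or: `∫ N e^{-N} = n I(1)` and
`∫ N² e^{-N} = n (n+1) I(1)`, by the formula `∫ g(N x) dx = n |{N ≤ 1}| ∫_0^∞ s^(n-1) g(s) ds`
(`MeasureTheory.integral_fun_norm_addHaar` for the space normed by `N`, as in Mathlib/MeasureTheory/Measure/Lebesgue/VolumeOfBalls).
Then `∫ (N - n)² e^{-N} = (n(n+1) - 2n² + n²) I(1) = n I(1)`.
-/

set_option autoImplicit false

open MeasureTheory Set Pool.Agent.MO
open scoped ENNReal NNReal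

namespace Pool.Agent.MOZ

theorem nf_cont {n M : ℕ} (a : Fin M → Fin n → ℝ) : Continuous (nf a) := by
  unfold nf
  fun_prop

theorem nf_smul {n M : ℕ} (a : Fin M → Fin n → ℝ) (t : ℝ) (x : Fin n → ℝ) :
    nf a (t • x) = |t| * nf a x := by
  unfold nf
  rw [Finset.mul_sum]
  refine Finset.sum_congr rfl fun i _ => ?_
  rw [← abs_mul, Finset.mul_sum]
  congr 1
  refine Finset.sum_congr rfl fun j _ => ?_
  rw [Pi.smul_apply, smul_eq_mul]
  ring

theorem nf_add {n M : ℕ} (a : Fin M → Fin n → ℝ) (x y : Fin n → ℝ) :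
    nf a (x + y) ≤ nf a x + nf a y := by
  unfold nf
  rw [← Finset.sum_add_distrib]
  refine Finset.sum_le_sum fun i _ => ?_
  have e : ∑ j, a i j * (x + y) j = ∑ j, a i j * x j + ∑ j, a i j * y j := by
    rw [← Finset.sum_add_distrib]
    refine Finset.sum_congr rfl fun j _ => ?_
    rw [Pi.add_apply]
    ring
  rw [e]
  exact abs_add_le _ _

private theorem nf_nonneg' {n M : ℕ} (a : Fin M → Fin n → ℝ) (x : Fin n → ℝ) : 0 ≤ nf a x :=
  Finset.sum_nonneg fun _ _ => abs_nonneg _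

/-- the linear map with coordinates the functionals `a i` -/
private noncomputable def homL {n M : ℕ} (a : Fin M → Fin n → ℝ) :
    (Fin n → ℝ) →ₗ[ℝ] PiLp 1 (fun _ : Fin M => ℝ) :=
  (WithLp.linearEquiv 1 ℝ (Fin M → ℝ)).symm.toLinearMap.comp (Matrix.toLin' (Matrix.of a))

private theorem homL_apply {n M : ℕ} (a : Fin M → Fin n → ℝ) (x : Fin n → ℝ) (i : Fin M) :
    homL a x i = ∑ j, a i j * x j := by
  simp [homL, Matrix.mulVec, dotProduct]

private theorem homL_norm {n M : ℕ} (a : Fin M → Fin n → ℝ) (x : Fin n → ℝ) :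
    ‖homL a x‖ = nf a x := by
  rw [PiLp.norm_eq_of_L1]
  unfold nf
  refine Finset.sum_congr rfl fun i _ => ?_
  rw [homL_apply, Real.norm_eq_abs]

private theorem homL_inj {n M : ℕ} {a : Fin M → Fin n → ℝ} (ha : Nd a) :
    LinearMap.ker (homL a) = ⊥ := by
  rw [LinearMap.ker_eq_bot']
  intro x hx
  refine ha x fun i => ?_
  rw [← homL_apply, hx]
  rfl

theorem nf_lower {n M : ℕ} {a : Fin M → Fin n → ℝ} (ha : Nd a) :
    ∃ c : ℝ, 0 < c ∧ ∀ x, c * ‖x‖ ≤ nf a x := by
  obtain ⟨C, hC, hA⟩ := LinearMap.exists_antilipschitzWith (homL a) (homL_inj ha)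
  refine ⟨(C : ℝ)⁻¹, by positivity, fun x => ?_⟩
  have h1 := hA.le_mul_norm (map_zero _) x
  rw [homL_norm] at h1
  rw [inv_mul_le_iff₀ (by positivity)]
  exact h1

/-- integrals of radial functions -/
private theorem hom_radial {n M : ℕ} (hn : 1 ≤ n) {a : Fin M → Fin n → ℝ} (ha : Nd a) :
    ∃ c : ℝ, 0 < c ∧ ∀ f : ℝ → ℝ,
      (IntegrableOn (fun y : ℝ => y ^ (n - 1) * f y) (Ioi 0) →
        Integrable (fun x : Fin n → ℝ => f (nf a x))) ∧
      ∫ x : Fin n → ℝ, f (nf a x) = c * ∫ y in Ioi (0 : ℝ), y ^ (n - 1) * f y := by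
  have hinj : Function.Injective (homL a) := LinearMap.ker_eq_bot.1 (homL_inj ha)
  let e : (Fin n → ℝ) ≃ₗ[ℝ] LinearMap.range (homL a) := LinearEquiv.ofInjective (homL a) hinj
  let _ : MeasurableSpace (LinearMap.range (homL a)) := borel _
  have _ : BorelSpace (LinearMap.range (homL a)) := ⟨rfl⟩
  let φ : (Fin n → ℝ) ≃L[ℝ] LinearMap.range (homL a) := e.toContinuousLinearEquiv
  have hφ : ∀ x, ‖φ x‖ = nf a x := fun x => homL_norm a x
  let ν : Measure (LinearMap.range (homL a)) := Measure.map φ volume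
  have hν : ν.IsAddHaarMeasure := φ.isAddHaarMeasure_map volume
  have hfr : Module.finrank ℝ (LinearMap.range (homL a)) = n := by
    rw [← LinearEquiv.finrank_eq e, Module.finrank_fin_fun]
  have _ : Nontrivial (LinearMap.range (homL a)) := by
    apply Module.nontrivial_of_finrank_pos (R := ℝ)
    rw [hfr]
    omega
  have hmp : MeasurePreserving φ.toHomeomorph.toMeasurableEquiv (volume : Measure (Fin n → ℝ)) ν :=
    Measurable.measurePreserving (MeasurableEquiv.measurable _) _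
  refine ⟨n * ν.real (Metric.ball 0 1), ?_, fun f => ⟨fun hf => ?_, ?_⟩⟩
  · have h1 : 0 < ν.real (Metric.ball (0 : LinearMap.range (homL a)) 1) :=
      ENNReal.toReal_pos (Metric.measure_ball_pos ν 0 one_pos).ne' measure_ball_lt_top.ne
    have h2 : (0 : ℝ) < n := by exact_mod_cast hn
    positivity
  · have h1 : Integrable (fun y : LinearMap.range (homL a) => f ‖y‖) ν := by
      rw [integrable_fun_norm_addHaar, hfr]
      exact hf
    have h2 := (hmp.integrable_comp_emb (MeasurableEquiv.measurableEmbedding _)).2 h1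
    refine h2.congr (Filter.Eventually.of_forall fun x => ?_)
    exact congrArg f (hφ x)
  · have h1 := integral_fun_norm_addHaar ν f
    rw [hfr, ← hmp.integral_comp'] at h1
    have h2 : ∀ x, f ‖φ.toHomeomorph.toMeasurableEquiv x‖ = f (nf a x) := fun x =>
      congrArg f (hφ x)
    simp only [h2, smul_eq_mul, nsmul_eq_mul] at h1
    rw [h1, mul_assoc]

open scoped Pointwise in
private theorem hom_scale {n M : ℕ} (a : Fin M → Fin n → ℝ) {u : ℝ} (hu : 0 < u) :
    volume {x | nf a x ≤ u} = ENNReal.ofReal (u ^ n) * volume {x | nf a x ≤ 1} := by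
  have h1 : {x : Fin n → ℝ | nf a x ≤ u} = u • {x : Fin n → ℝ | nf a x ≤ 1} := by
    ext x
    rw [mem_smul_set_iff_inv_smul_mem₀ hu.ne', mem_ofPred_eq, mem_ofPred_eq, nf_smul,
      abs_of_pos (inv_pos.2 hu), inv_mul_le_iff₀ hu, mul_one]
  rw [h1, Measure.addHaar_smul, Module.finrank_fin_fun, abs_of_pos (pow_pos hu n)]

private theorem hom_gamma_int (k : ℕ) {s : ℝ} (hs : 0 < s) :
    IntegrableOn (fun y : ℝ => y ^ k * Real.exp (-(s * y))) (Ioi 0) := by
  have h1 := integrableOn_rpow_mul_exp_neg_mul_rpow (p := 1) (s := (k : ℝ)) (b := s)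
    (by have : (0 : ℝ) ≤ k := Nat.cast_nonneg k
        linarith) one_pos hs
  refine h1.congr_fun (fun x _ => ?_) measurableSet_Ioi
  simp only [Real.rpow_natCast, Real.rpow_one, neg_mul]

private theorem hom_gamma (k : ℕ) :
    ∫ y in Ioi (0 : ℝ), y ^ k * Real.exp (-y) = (k.factorial : ℝ) := by
  rw [← Real.Gamma_nat_eq_factorial, Real.Gamma_eq_integral (by positivity)]
  refine setIntegral_congr_fun measurableSet_Ioi fun x _ => ?_
  show x ^ k * Real.exp (-x) = Real.exp (-x) * x ^ ((k : ℝ) + 1 - 1)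
  rw [add_sub_cancel_right, Real.rpow_natCast, mul_comm]

theorem hom_int {n M : ℕ} {a : Fin M → Fin n → ℝ} (ha : Nd a) {s : ℝ} (hs : 0 < s) :
    Integrable (fun x : Fin n → ℝ => Real.exp (-(s * nf a x))) ∧
      0 < ∫ x : Fin n → ℝ, Real.exp (-(s * nf a x)) := by
  have hint : Integrable (fun x : Fin n → ℝ => Real.exp (-(s * nf a x))) := by
    rcases Nat.eq_zero_or_pos n with rfl | hn
    · have h1 : (fun x : Fin 0 → ℝ => Real.exp (-(s * nf a x))) = fun _ => 1 := by
        funext x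
        simp [nf]
      rw [h1]
      exact integrable_const 1
    · obtain ⟨c, _, hc⟩ := hom_radial hn ha
      exact (hc fun y => Real.exp (-(s * y))).1 (hom_gamma_int (n - 1) hs)
  refine ⟨hint, ?_⟩
  rw [integral_pos_iff_support_of_nonneg (fun x => (Real.exp_pos _).le) hint]
  have h1 : Function.support (fun x : Fin n → ℝ => Real.exp (-(s * nf a x))) = univ := by
    ext x
    simp [Real.exp_ne_zero]
  rw [h1]
  exact Measure.measure_univ_pos.2 (NeZero.ne _)

theorem hom_vol {n M : ℕ} (hn : 1 ≤ n) {a : Fin M → Fin n → ℝ} (ha : Nd a) {u : ℝ} (hu : 0 ≤ u) :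
    volume {x | nf a x ≤ u} = ENNReal.ofReal (u ^ n) * volume {x | nf a x ≤ 1} := by
  rcases hu.eq_or_lt with rfl | hu
  · obtain ⟨c, hc, hcl⟩ := nf_lower ha
    have h1 : {x : Fin n → ℝ | nf a x ≤ 0} ⊆ {0} := by
      intro x hx
      have h2 : c * ‖x‖ ≤ 0 := (hcl x).trans hx
      have h3 : ‖x‖ ≤ 0 := by
        by_contra h4
        push Not at h4
        nlinarith
      exact norm_le_zero_iff.1 h3
    have h2 : Nonempty (Fin n) := ⟨⟨0, hn⟩⟩
    have h3 : volume {x : Fin n → ℝ | nf a x ≤ 0} = 0 :=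
      measure_mono_null h1 (measure_singleton _)
    rw [h3, zero_pow (by omega), ENNReal.ofReal_zero, zero_mul]
  · exact hom_scale a hu

theorem hom_fin {n M : ℕ} {a : Fin M → Fin n → ℝ} (ha : Nd a) :
    0 < volume {x | nf a x ≤ 1} ∧ volume {x | nf a x ≤ 1} ≠ ∞ := by
  constructor
  · have h1 : IsOpen {x : Fin n → ℝ | nf a x < 1} := isOpen_lt (nf_cont a) continuous_const
    have h2 : (0 : Fin n → ℝ) ∈ {x : Fin n → ℝ | nf a x < 1} := by
      show nf a 0 < 1
      simp [nf]
    exact (h1.measure_pos volume ⟨0, h2⟩).trans_le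
      (measure_mono fun x hx => (show nf a x < 1 from hx).le)
  · obtain ⟨c, hc, hcl⟩ := nf_lower ha
    have h1 : {x : Fin n → ℝ | nf a x ≤ 1} ⊆ Metric.closedBall 0 (1 / c) := by
      intro x hx
      rw [mem_closedBall_zero_iff, le_div_iff₀ hc, mul_comm]
      exact (hcl x).trans hx
    exact ((measure_mono h1).trans_lt measure_closedBall_lt_top).ne

theorem hom_var {n M : ℕ} {a : Fin M → Fin n → ℝ} (ha : Nd a) :
    Integrable (fun x : Fin n → ℝ => (nf a x - n) ^ 2 * Real.exp (-nf a x)) ∧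
      ∫ x : Fin n → ℝ, (nf a x - n) ^ 2 * Real.exp (-nf a x) =
        n * ∫ x : Fin n → ℝ, Real.exp (-nf a x) := by
  rcases Nat.eq_zero_or_pos n with rfl | hn
  · have h1 : (fun x : Fin 0 → ℝ => (nf a x - (0 : ℕ)) ^ 2 * Real.exp (-nf a x)) =
        fun _ => 0 := by
      funext x
      simp [nf]
    rw [h1]
    simp
  · obtain ⟨c, _, hc⟩ := hom_radial hn ha
    have hg : ∀ k : ℕ, IntegrableOn (fun y : ℝ => y ^ k * Real.exp (-y)) (Ioi 0) := by
      intro k
      have := hom_gamma_int k one_pos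
      simpa only [one_mul] using this
    have e : ∀ y : ℝ, y ^ (n - 1) * ((y - n) ^ 2 * Real.exp (-y)) =
        y ^ (n + 1) * Real.exp (-y) - 2 * n * (y ^ n * Real.exp (-y)) +
          n ^ 2 * (y ^ (n - 1) * Real.exp (-y)) := by
      intro y
      obtain ⟨k, rfl⟩ : ∃ k, n = k + 1 := ⟨n - 1, by omega⟩
      rw [Nat.add_sub_cancel]
      push_cast
      ring
    have hi : IntegrableOn (fun y : ℝ => y ^ (n - 1) * ((y - n) ^ 2 * Real.exp (-y))) (Ioi 0) := by
      simp only [e]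
      exact ((hg (n + 1)).sub ((hg n).const_mul _)).add ((hg (n - 1)).const_mul _)
    refine ⟨(hc fun y => (y - n) ^ 2 * Real.exp (-y)).1 hi, ?_⟩
    rw [(hc fun y => (y - n) ^ 2 * Real.exp (-y)).2, (hc fun y => Real.exp (-y)).2, hom_gamma]
    simp only [e]
    have hs1 : IntegrableOn (fun y : ℝ => y ^ (n + 1) * Real.exp (-y) -
        2 * n * (y ^ n * Real.exp (-y))) (Ioi 0) := (hg (n + 1)).sub ((hg n).const_mul _)
    rw [integral_add hs1 ((hg (n - 1)).const_mul _),
      integral_sub (hg (n + 1)) ((hg n).const_mul _), integral_const_mul, integral_const_mul,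
      hom_gamma, hom_gamma, hom_gamma]
    obtain ⟨k, rfl⟩ : ∃ k, n = k + 1 := ⟨n - 1, by omega⟩
    rw [Nat.add_sub_cancel, Nat.factorial_succ (k + 1), Nat.factorial_succ k]
    push_cast
    ring

end Pool.Agent.MOZ
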