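import Pool.Agent.MOZ.ZLip
import Pool.Agent.MOZ.Hom

/-!
# MOZ-CfgZ: unit balls of finite dimensional subspaces of `l_1`

`b i j = n * a i j`, `nf b = n * nf a`, `Nd b`. `Ψ x = ENNReal.ofReal (nf b x)`, `lam = S = n`, `r, L = 2/r` from `zlip`. `er (Ψ x) = exp(-nf b x)`,
`ec θ (Ψ x) = exp(-θ nf b x)` (`Ψ` finite). `{Ψ ≤ ofReal u} = {nf b ≤ u} = {nf a ≤ u/n}` for `u ≥ 0`. `var`: `M = n`, `hom_var` for `b`.
`vol`: `hom_vol`: `(u/n)^n ≤ exp(u - n)` since `u/n ≤ exp(u/n - 1)`, and the level set `{Ψ ≤ ofReal n} = {nf a ≤ 1}`.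
`lip`: `zlip` for `b` with `‖1 + iτ‖^(-n) = (1+τ²)^(-n/2) ≤ exp(-τ² n/4)` for `|τ| ≤ 1` (`1 + τ² ≥ exp(τ²/2)` for `τ² ≤ 1`).
-/

set_option autoImplicit false

open MeasureTheory Set Pool.Agent.MO
open scoped ENNReal NNReal

namespace Pool.Agent.MOZ

private theorem cz_nonneg {n M : ℕ} (a : Fin M → Fin n → ℝ) (x : Fin n → ℝ) : 0 ≤ nf a x :=
  Finset.sum_nonneg fun _ _ => abs_nonneg _

private theorem cz_er {n M : ℕ} (a : Fin M → Fin n → ℝ) (x : Fin n → ℝ) :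
    er (ENNReal.ofReal (nf a x)) = Real.exp (-nf a x) := by
  unfold er
  rw [if_neg ENNReal.ofReal_ne_top, ENNReal.toReal_ofReal (cz_nonneg a x)]

private theorem cz_ec {n M : ℕ} (a : Fin M → Fin n → ℝ) (θ : ℂ) (x : Fin n → ℝ) :
    ec θ (ENNReal.ofReal (nf a x)) = Complex.exp (-(θ * (nf a x : ℂ))) := by
  unfold ec
  rw [if_neg ENNReal.ofReal_ne_top, ENNReal.toReal_ofReal (cz_nonneg a x), neg_mul]

private theorem cz_scale {n M : ℕ} (a : Fin M → Fin n → ℝ) {t : ℝ} (ht : 0 ≤ t)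
    (x : Fin n → ℝ) : nf (fun i j => t * a i j) x = t * nf a x := by
  unfold nf
  rw [Finset.mul_sum]
  refine Finset.sum_congr rfl fun i _ => ?_
  have h1 : ∑ j, t * a i j * x j = t * ∑ j, a i j * x j := by
    rw [Finset.mul_sum]
    exact Finset.sum_congr rfl fun j _ => by ring
  rw [h1, abs_mul, abs_of_nonneg ht]

private theorem cz_pow {n : ℕ} {τ : ℝ} (hτ : |τ| ≤ 1) :
    (‖1 + (τ : ℂ) * Complex.I‖ ^ n)⁻¹ ≤ Real.exp (-(τ ^ 2 * n / 4)) := by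
  have hτ2 : τ ^ 2 ≤ 1 := by
    rw [← sq_abs]
    exact pow_le_one₀ (abs_nonneg _) hτ
  have hτ0 : 0 ≤ τ ^ 2 := sq_nonneg _
  have h1 : ‖1 + (τ : ℂ) * Complex.I‖ ^ 2 = 1 + τ ^ 2 := by
    rw [Complex.sq_norm, Complex.normSq_apply]
    simp
    ring
  have h2 : Real.exp (τ ^ 2 / 2) ≤ 1 + τ ^ 2 := by
    have h3 : 1 - τ ^ 2 / 2 ≤ Real.exp (-(τ ^ 2 / 2)) := by
      have := Real.add_one_le_exp (-(τ ^ 2 / 2))
      linarith
    have h4 : Real.exp (τ ^ 2 / 2) * Real.exp (-(τ ^ 2 / 2)) = 1 := by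
      rw [← Real.exp_add]
      simp
    have h5 : Real.exp (τ ^ 2 / 2) * (1 - τ ^ 2 / 2) ≤ 1 := by
      calc Real.exp (τ ^ 2 / 2) * (1 - τ ^ 2 / 2)
          ≤ Real.exp (τ ^ 2 / 2) * Real.exp (-(τ ^ 2 / 2)) :=
            mul_le_mul_of_nonneg_left h3 (Real.exp_pos _).le
        _ = 1 := h4
    have h6 : 1 ≤ (1 + τ ^ 2) * (1 - τ ^ 2 / 2) := by nlinarith
    have h7 : 0 < 1 - τ ^ 2 / 2 := by linarith
    exact le_of_mul_le_mul_right (h5.trans h6) h7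
  have h3 : Real.exp (τ ^ 2 / 4) ≤ ‖1 + (τ : ℂ) * Complex.I‖ := by
    have h4 : Real.exp (τ ^ 2 / 4) ^ 2 ≤ ‖1 + (τ : ℂ) * Complex.I‖ ^ 2 := by
      rw [h1]
      refine le_trans (le_of_eq ?_) h2
      rw [← Real.exp_nat_mul]
      congr 1
      push_cast
      ring
    exact le_of_sq_le_sq h4 (norm_nonneg _)
  have h4 : Real.exp (τ ^ 2 * n / 4) ≤ ‖1 + (τ : ℂ) * Complex.I‖ ^ n := by
    refine le_trans (le_of_eq ?_) (pow_le_pow_left₀ (Real.exp_pos _).le h3 n)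
    rw [← Real.exp_nat_mul]
    congr 1
    ring
  rw [Real.exp_neg]
  exact inv_anti₀ (Real.exp_pos _) h4

theorem cfg_Z {p : ℝ} (hp : 1 < p) (hp2 : p ≤ 2) :
    ∃ r L : ℝ, 0 < r ∧ 0 < L ∧ ∀ (n M : ℕ) (a : Fin M → Fin n → ℝ), 1 ≤ n → Nd a →
      ∃ (S lam : ℝ) (Ψ : (Fin n → ℝ) → ℝ≥0∞), Cfg p r L 1 S lam Ψ ∧
        {x | Ψ x ≤ ENNReal.ofReal lam} = {x | nf a x ≤ 1} := by
  obtain ⟨r, hr, hr1, hlip⟩ := zlip hp hp2
  refine ⟨r, 2 / r, hr, by positivity, fun n M a hn ha => ?_⟩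
  have hn0 : (0 : ℝ) < n := by exact_mod_cast hn
  obtain ⟨b, hb⟩ : ∃ b : Fin M → Fin n → ℝ, b = fun i j => (n : ℝ) * a i j := ⟨_, rfl⟩
  have hbn : ∀ x, nf b x = n * nf a x := fun x => by
    rw [hb]
    exact cz_scale a hn0.le x
  have hbd : Nd b := by
    intro x hx
    apply ha
    intro i
    have h1 := hx i
    rw [hb] at h1
    have h2 : ∑ j, (n : ℝ) * a i j * x j = n * ∑ j, a i j * x j := by
      rw [Finset.mul_sum]
      exact Finset.sum_congr rfl fun j _ => by ring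
    simp only at h1
    rw [h2] at h1
    exact (mul_eq_zero.mp h1).resolve_left hn0.ne'
  have hset : ∀ u : ℝ, 0 ≤ u → {x | ENNReal.ofReal (nf b x) ≤ ENNReal.ofReal u} =
      {x | nf a x ≤ u / n} := by
    intro u hu
    ext x
    simp only [Set.mem_ofPred_eq]
    rw [ENNReal.ofReal_le_ofReal_iff hu, hbn, le_div_iff₀ hn0, mul_comm]
  have hset1 : {x | ENNReal.ofReal (nf b x) ≤ ENNReal.ofReal (n : ℝ)} = {x | nf a x ≤ 1} := by
    rw [hset n hn0.le, div_self hn0.ne']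
  have hint := hom_int hbd one_pos
  simp only [one_mul] at hint
  refine ⟨n, n, fun x => ENNReal.ofReal (nf b x), ?_, hset1⟩
  refine { meas := ?_, int := ?_, pos := ?_, S0 := hn0.le, lam0 := hn0.le, bpos := ?_,
           bfin := ?_, var := ?_, vol := ?_, lip := ?_ }
  · exact (nf_cont b).measurable.ennreal_ofReal
  · simp only [cz_er]
    exact hint.1
  · simp only [cz_er]
    exact hint.2
  · rw [hset1]
    exact (hom_fin ha).1
  · rw [hset1]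
    exact (hom_fin ha).2
  · refine ⟨n, ?_⟩
    simp only [cz_er, ENNReal.toReal_ofReal (cz_nonneg b _)]
    exact ⟨(hom_var hbd).1, (hom_var hbd).2.le⟩
  · intro u hu
    rw [hset1, hset u hu, hom_vol hn ha (div_nonneg hu hn0.le)]
    refine mul_le_mul_left (ENNReal.ofReal_le_ofReal ?_) _
    rw [one_mul]
    have h1 : u / n ≤ Real.exp (u / n - 1) := by
      have := Real.add_one_le_exp (u / n - 1)
      linarith
    refine (pow_le_pow_left₀ (div_nonneg hu hn0.le) h1 n).trans (le_of_eq ?_)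
    rw [← Real.exp_nat_mul]
    congr 1
    field_simp
  · intro τ ε hτ hε hεr
    have h1 := hlip n M b hbd τ ε hτ hε hεr
    simp only [cz_er, cz_ec]
    refine nb_mono (by linarith) ?_ h1
    have h3 : 2 * ε / r = 2 / r * ε := by ring
    rw [h3]
    have h4 := cz_pow (n := n) (hτ.trans hr1)
    exact mul_le_mul_of_nonneg_left (mul_le_mul_of_nonneg_left h4 hint.2.le) (by positivity)

end Pool.Agent.MOZ
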