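import Pool.Agent.MO.Defs2

/-!
# Project MOZ (MP_84a211_an): definitions

Dimension-free maximal inequalities for all exponents `p > 1` for the unit balls of the finite dimensional subspaces of
`L_1`.

* `ga v`: the centred Gaussian density of variance `v` on `Fin 1 → ℝ`.
* `gc θ`: the complex Gaussian kernel `θ (2π)^(-1/2) exp(-θ^2 x^2/2)` (integral one).
* `nf a x = ∑ i, |⟨a i, x⟩|`, `qf a v x = ∑ i, v i ⟨a i, x⟩^2`.
* `Nd a`: the vectors `a i` span.
* `sm`: the probability measure on `(0,∞)` with density `(2π w)^(-1/2) exp(-w/2)`.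
-/

set_option autoImplicit false

open MeasureTheory Set Pool.Agent.MO
open scoped ENNReal NNReal

namespace Pool.Agent.MOZ

/-- The centred Gaussian density of variance `v`. -/
noncomputable def ga (v : ℝ) (x : Fin 1 → ℝ) : ℝ :=
  (Real.sqrt (2 * Real.pi * v))⁻¹ * Real.exp (-(x 0 ^ 2 / (2 * v)))

/-- The complex Gaussian kernel. -/
noncomputable def gc (θ : ℂ) (x : Fin 1 → ℝ) : ℂ :=
  (((Real.sqrt (2 * Real.pi))⁻¹ : ℝ) : ℂ) * (θ * Complex.exp (-(θ ^ 2 * (x 0 : ℂ) ^ 2 / 2)))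

/-- The norm `∑ |⟨a i, x⟩|`. -/
noncomputable def nf {n M : ℕ} (a : Fin M → Fin n → ℝ) (x : Fin n → ℝ) : ℝ :=
  ∑ i, |∑ j, a i j * x j|

/-- The quadratic form `∑ v i ⟨a i, x⟩^2`. -/
noncomputable def qf {n M : ℕ} (a : Fin M → Fin n → ℝ) (v : Fin M → ℝ) (x : Fin n → ℝ) : ℝ :=
  ∑ i, v i * (∑ j, a i j * x j) ^ 2

/-- The vectors `a i` span the space. -/
def Nd {n M : ℕ} (a : Fin M → Fin n → ℝ) : Prop :=
  ∀ x : Fin n → ℝ, (∀ i, ∑ j, a i j * x j = 0) → x = 0

/-- The density `(2π w)^(-1/2) exp(-w/2)` on `(0,∞)`. -/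
noncomputable def sd (w : ℝ) : ℝ := (Real.sqrt (2 * Real.pi * w))⁻¹ * Real.exp (-(w / 2))

/-- The probability measure with density `sd` on `(0,∞)`. -/
noncomputable def sm : Measure ℝ :=
  (volume.restrict (Ioi (0 : ℝ))).withDensity fun w => ENNReal.ofReal (sd w)

end Pool.Agent.MOZ
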