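import Pool.Agent.MOZ.CfgZ
import Pool.Agent.MOZ.Appr
import Pool.Agent.MO.LocU
import Pool.Agent.MO.Body

/-!
# MOZ-FinZ: Theorem Z (assembly)
-/

set_option autoImplicit false

open MeasureTheory Set Pool.Agent.MO
open scoped Pointwise ENNReal NNReal

namespace Pool.Agent.MOZ

theorem fin_Z0 {p : ℝ} (hp : 1 < p) (hp2 : p ≤ 2) :
    ∃ C : ℝ≥0, ∀ (n M : ℕ) (a : Fin M → Fin n → ℝ), 1 ≤ n → Nd a →
      MX.Bdd p (C : ℝ≥0∞) {x | nf a x ≤ 1} := by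
  have h1 : 1 < (1 + p) / 2 := by linarith
  have h2 : (1 + p) / 2 < p := by linarith
  have h3 : (1 + p) / 2 ≤ 2 := by linarith
  obtain ⟨r, L, hr, hL, h⟩ := cfg_Z h1 h3
  obtain ⟨D, hD⟩ := loc_of_cfg ((1 + p) / 2) r L 1 h1 hr hL zero_le_one
  obtain ⟨C, hC⟩ := body_bdd h1 h2 hp2 D
  refine ⟨C, fun n M a hn ha => ?_⟩
  obtain ⟨S, lam, Ψ, hΨ, he⟩ := h n M a hn ha
  have hloc := hD _ Ψ S lam hΨ
  rw [he] at hloc
  obtain ⟨c, hc, hl⟩ := nf_lower ha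
  have hcont := nf_cont a
  refine hC _ _ ?_ ?_ ?_ ?_ hloc
  · refine Metric.isCompact_of_isClosed_isBounded (isClosed_le hcont continuous_const) ?_
    refine (Metric.isBounded_closedBall (x := (0 : Fin n → ℝ)) (r := 1 / c)).subset fun x hx => ?_
    rw [mem_closedBall_zero_iff, le_div_iff₀ hc]
    have := hl x
    simp only [mem_setOf_eq] at hx
    linarith [mul_comm c ‖x‖]
  · intro x hx y hy s t hs ht hst
    simp only [mem_setOf_eq] at hx hy ⊢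
    calc nf a (s • x + t • y) ≤ nf a (s • x) + nf a (t • y) := nf_add a _ _
      _ = s * nf a x + t * nf a y := by
          rw [nf_smul, nf_smul, abs_of_nonneg hs, abs_of_nonneg ht]
      _ ≤ s * 1 + t * 1 := add_le_add (mul_le_mul_of_nonneg_left hx hs)
          (mul_le_mul_of_nonneg_left hy ht)
      _ = 1 := by linarith
  · refine ⟨0, mem_interior.2 ⟨{x | nf a x < 1}, fun x hx => ?_,
      isOpen_lt hcont continuous_const, ?_⟩⟩
    · simp only [mem_setOf_eq] at hx ⊢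
      exact hx.le
    · have h0 := nf_smul a 0 (0 : Fin n → ℝ)
      rw [zero_smul, abs_zero, zero_mul] at h0
      simp only [mem_setOf_eq, h0]
      norm_num
  · intro x hx
    have h0 := nf_smul a (-1) x
    rw [neg_one_smul, abs_neg, abs_one, one_mul] at h0
    simp only [mem_setOf_eq] at hx ⊢
    rw [h0]
    exact hx

theorem fin_Z {p : ℝ} (hp : 1 < p) (hp2 : p ≤ 2) :
    ∃ C : ℝ≥0, ∀ (n : ℕ), 1 ≤ n → ∀ (Ω : Type) [MeasurableSpace Ω] (μ : Measure Ω)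
      (g : Fin n → Ω → ℝ), (∀ j, Integrable (g j) μ) →
      IsCompact {x : Fin n → ℝ | ∫ ω, |∑ j, x j * g j ω| ∂μ ≤ 1} →
      MX.Bdd p (C : ℝ≥0∞) {x : Fin n → ℝ | ∫ ω, |∑ j, x j * g j ω| ∂μ ≤ 1} := by
  obtain ⟨C, hC⟩ := fin_Z0 hp hp2
  exact ⟨2 * C, fun n hn Ω _ μ g hg hB => appr μ g hg hB hp fun M a ha => hC n M a hn ha⟩

/-- The explicit form. -/
theorem fin_Z_explicit {p : ℝ} (hp : 1 < p) (hp2 : p ≤ 2) :
    ∃ C : ℝ, ∀ (n : ℕ), 1 ≤ n → ∀ (Ω : Type) [MeasurableSpace Ω] (μ : Measure Ω)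
      (g : Fin n → Ω → ℝ), (∀ j, Integrable (g j) μ) →
      ∀ B : Set (Fin n → ℝ), B = {x | ∫ ω, |∑ j, x j * g j ω| ∂μ ≤ 1} →
      IsCompact B → volume B = 1 →
        ∀ f : (Fin n → ℝ) → ℝ, Measurable f →
          ∫⁻ x, (⨆ t : ℝ, ⨆ (_ : 0 < t),
              (∫⁻ y in t • B, ‖f (x + y)‖ₑ) / ENNReal.ofReal (t ^ n)) ^ p ≤
            ENNReal.ofReal C * ∫⁻ x, ‖f x‖ₑ ^ p := by
  obtain ⟨C, hC⟩ := fin_Z hp hp2
  refine ⟨(C : ℝ) ^ p, fun n hn Ω _ μ g hg B hB hB1 hB3 f hf => ?_⟩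
  have h := hC n hn Ω μ g hg (by rw [← hB]; exact hB1)
  rw [← hB] at h
  have h := h f hf
  have hp0 : 0 ≤ p := by linarith
  have e1 : ENNReal.ofReal ((C : ℝ) ^ p) = (C : ℝ≥0∞) ^ p := by
    rw [← ENNReal.ofReal_rpow_of_nonneg (NNReal.coe_nonneg C) hp0, ENNReal.ofReal_coe_nnreal]
  rw [e1]
  refine le_trans (le_of_eq ?_) h
  refine lintegral_congr fun x => ?_
  congr 1
  unfold MX.maxF
  refine iSup_congr fun t => iSup_congr fun ht => ?_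
  rw [Measure.addHaar_smul, hB3, mul_one]
  congr 2
  rw [Module.finrank_pi, Fintype.card_fin, abs_of_pos (pow_pos ht _)]

end Pool.Agent.MOZ
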