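import Pool.Agent.MOZ.Defs

/-!
# MOZ-Ga: comparison for the Gaussian density

Mass and convolution identity of the Gaussian densities on the line, and the comparison with the constant `2`.
-/

set_option autoImplicit false

open MeasureTheory Set Pool.Agent.MO
open scoped ENNReal NNReal

namespace Pool.Agent.MOZ

private theorem g_cont (v : ℝ) : Continuous (ga v) := by
  unfold ga
  fun_prop

private theorem g_even (v : ℝ) (x : Fin 1 → ℝ) : ga v (-x) = ga v x := by
  simp [ga]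

private theorem g_nonneg (v : ℝ) (x : Fin 1 → ℝ) : 0 ≤ ga v x := by
  unfold ga
  positivity

private theorem g_tr (f : (Fin 1 → ℝ) → ℝ) (h : ℝ → ℝ) (e : ∀ x, f x = h (x 0)) :
    ∫ x, f x = ∫ t, h t := by
  rw [← (volume_preserving_funUnique (Fin 1) ℝ).integral_comp
    (MeasurableEquiv.measurableEmbedding _) h]
  exact integral_congr_ae (Filter.Eventually.of_forall e)

private theorem g_ti (f : (Fin 1 → ℝ) → ℝ) (h : ℝ → ℝ) (e : ∀ x, f x = h (x 0))
    (hi : Integrable h) : Integrable f := by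
  have h1 := ((volume_preserving_funUnique (Fin 1) ℝ).integrable_comp_emb
    (MeasurableEquiv.measurableEmbedding _) (g := h)).2 hi
  have h2 : f = h ∘ (MeasurableEquiv.funUnique (Fin 1) ℝ) := funext e
  rw [h2]
  exact h1

private theorem g_int {v : ℝ} (hv : 0 < v) : Integrable (ga v) := by
  refine g_ti (ga v) (fun t => (Real.sqrt (2 * Real.pi * v))⁻¹ * Real.exp (-(1 / (2 * v)) * t ^ 2))
    (fun x => ?_) ?_
  · unfold ga
    congr 2
    ring
  · exact (integrable_exp_neg_mul_sq (by positivity)).const_mul _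

private theorem g_one {v : ℝ} (hv : 0 < v) : ∫ y, ga v y = 1 := by
  rw [g_tr (ga v) (fun t => (Real.sqrt (2 * Real.pi * v))⁻¹ * Real.exp (-(1 / (2 * v)) * t ^ 2))
    (fun x => by
      unfold ga
      congr 2
      ring), integral_const_mul, integral_gaussian]
  have h1 : Real.pi / (1 / (2 * v)) = 2 * Real.pi * v := by
    field_simp
  rw [h1]
  have hpi := Real.pi_pos
  have h2 : Real.sqrt (2 * Real.pi * v) ≠ 0 := (Real.sqrt_pos.2 (by positivity)).ne'
  exact inv_mul_cancel₀ h2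

theorem ga_dn {v : ℝ} (hv : 0 < v) : Dn (ga v) where
  meas := (g_cont v).measurable
  nonneg := g_nonneg v
  even := g_even v
  int := g_int hv
  mass := (g_one hv).le
  one := g_one hv

private theorem g_conv (w : Fin 1 → ℝ) : ∫ y, ga 1 y * ga 1 (y - w) = ga 2 w := by
  have hpi := Real.pi_pos
  have h0 : Real.sqrt (2 * Real.pi * 1) * Real.sqrt (2 * Real.pi * 1) = 2 * Real.pi := by
    rw [Real.mul_self_sqrt (by positivity)]
    ring
  rw [g_tr (fun y => ga 1 y * ga 1 (y - w)) (fun t => ((2 * Real.pi)⁻¹ *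
    Real.exp (-(w 0 ^ 2 / 4))) * Real.exp (-1 * (t - w 0 / 2) ^ 2)) (fun x => by
      unfold ga
      have h1 : ∀ a b c : ℝ, a⁻¹ * b * (a⁻¹ * c) = (a * a)⁻¹ * (b * c) := by
        intro a b c
        rw [mul_inv]
        ring
      rw [h1, h0, mul_assoc, ← Real.exp_add, ← Real.exp_add]
      congr 2
      simp only [Pi.sub_apply]
      ring), integral_const_mul,
    integral_sub_right_eq_self (fun t : ℝ => Real.exp (-1 * t ^ 2)) (w 0 / 2), integral_gaussian]
  unfold ga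
  have h2 : Real.sqrt (2 * Real.pi * 2) = 2 * Real.sqrt Real.pi := by
    rw [show 2 * Real.pi * 2 = 2 ^ 2 * Real.pi by ring, Real.sqrt_mul (by norm_num),
      Real.sqrt_sq (by norm_num)]
  have h3 : Real.sqrt Real.pi ≠ 0 := (Real.sqrt_pos.2 hpi).ne'
  have h4 : (2 * Real.pi)⁻¹ * Real.sqrt Real.pi = (2 * Real.sqrt Real.pi)⁻¹ := by
    have h5 : Real.pi = Real.sqrt Real.pi * Real.sqrt Real.pi := (Real.mul_self_sqrt hpi.le).symm
    refine eq_inv_of_mul_eq_one_left ?_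
    rw [mul_assoc, inv_mul_eq_one₀ (by positivity)]
    linarith
  rw [h2, ← h4, div_one]
  have h6 : w 0 ^ 2 / (2 * 2) = w 0 ^ 2 / 4 := by norm_num
  rw [h6]
  ring

private theorem g_sqb {ρ : (Fin 1 → ℝ) → ℝ} (h : Adm ρ) : ∃ C : ℝ, ∀ y, ‖ρ y ^ 2‖ ≤ C := by
  obtain ⟨C, hC⟩ := h.bdd
  refine ⟨C ^ 2, fun y => ?_⟩
  rw [Real.norm_eq_abs, abs_of_nonneg (sq_nonneg _)]
  exact pow_le_pow_left₀ (h.nonneg y) (hC y) 2

private theorem g_ri {ρ : (Fin 1 → ℝ) → ℝ} (h : Adm ρ) {v : ℝ} (hv : 0 < v) :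
    Integrable fun y => ρ y ^ 2 * ga v y := by
  obtain ⟨C, hC⟩ := g_sqb h
  exact (g_int hv).bdd_mul (c := C) (h.cont.pow 2).aestronglyMeasurable
    (Filter.Eventually.of_forall hC)

private theorem g_prod {ρ : (Fin 1 → ℝ) → ℝ} (h : Adm ρ) :
    Integrable (Function.uncurry fun y w : Fin 1 → ℝ => ga 1 y * ga 1 (y - w) * ρ w ^ 2)
      ((volume : Measure (Fin 1 → ℝ)).prod volume) := by
  have h1 : Integrable (fun p : (Fin 1 → ℝ) × (Fin 1 → ℝ) => ga 1 p.1 * ga 1 p.2)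
      ((volume : Measure (Fin 1 → ℝ)).prod volume) :=
    (g_int one_pos).mul_prod (g_int one_pos)
  have h2 := (measurePreserving_prod_sub (volume : Measure (Fin 1 → ℝ))
    volume).integrable_comp_of_integrable h1
  obtain ⟨C, hC⟩ := g_sqb h
  have h3 : Integrable (fun p : (Fin 1 → ℝ) × (Fin 1 → ℝ) => ρ p.2 ^ 2 *
      ((fun p : (Fin 1 → ℝ) × (Fin 1 → ℝ) => ga 1 p.1 * ga 1 p.2) ∘
        fun z : (Fin 1 → ℝ) × (Fin 1 → ℝ) => (z.1, z.2 - z.1)) p)
      ((volume : Measure (Fin 1 → ℝ)).prod volume) :=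
    h2.bdd_mul (c := C) ((h.cont.comp continuous_snd).pow 2).aestronglyMeasurable
      (Filter.Eventually.of_forall fun p => hC p.2)
  refine h3.congr (Filter.Eventually.of_forall fun p => ?_)
  simp only [Function.comp, Function.uncurry]
  rw [← neg_sub p.2 p.1, g_even]
  ring

theorem ga_Dq {ρ : (Fin 1 → ℝ) → ℝ} (h : Adm ρ) : Dq (ga 1) ρ = ∫ y, ρ y ^ 2 * ga 2 y := by
  unfold Dq
  have h1 : ∀ y : Fin 1 → ℝ, ∫ z, ga 1 y * ga 1 z * ρ (y - z) ^ 2 =
      ∫ w, ga 1 y * ga 1 (y - w) * ρ w ^ 2 := by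
    intro y
    rw [← integral_sub_left_eq_self (fun w => ga 1 y * ga 1 (y - w) * ρ w ^ 2) volume y]
    refine integral_congr_ae (Filter.Eventually.of_forall fun z => ?_)
    simp only [sub_sub_cancel]
  simp_rw [h1]
  rw [integral_integral_swap (g_prod h)]
  refine integral_congr_ae (Filter.Eventually.of_forall fun w => ?_)
  simp only
  rw [integral_mul_const, g_conv]
  ring

private theorem g_le (x : Fin 1 → ℝ) : ga 1 x ≤ 2 * ga 2 x := by
  have hpi := Real.pi_pos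
  unfold ga
  have h1 : (Real.sqrt (2 * Real.pi * 1))⁻¹ ≤ 2 * (Real.sqrt (2 * Real.pi * 2))⁻¹ := by
    have h2 : Real.sqrt (2 * Real.pi * 2) ≤ 2 * Real.sqrt (2 * Real.pi * 1) := by
      rw [Real.sqrt_le_left (by positivity), mul_pow, Real.sq_sqrt (by positivity)]
      nlinarith
    have h3 : 0 < Real.sqrt (2 * Real.pi * 2) := Real.sqrt_pos.2 (by positivity)
    have h4 : 0 < Real.sqrt (2 * Real.pi * 1) := Real.sqrt_pos.2 (by positivity)
    rw [← div_eq_mul_inv, inv_eq_one_div, div_le_div_iff₀ h4 h3]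
    linarith
  have h5 : Real.exp (-(x 0 ^ 2 / (2 * 1))) ≤ Real.exp (-(x 0 ^ 2 / (2 * 2))) := by
    apply Real.exp_le_exp.2
    have := sq_nonneg (x 0)
    linarith
  calc (Real.sqrt (2 * Real.pi * 1))⁻¹ * Real.exp (-(x 0 ^ 2 / (2 * 1)))
      ≤ (2 * (Real.sqrt (2 * Real.pi * 2))⁻¹) * Real.exp (-(x 0 ^ 2 / (2 * 2))) :=
        mul_le_mul h1 h5 (by positivity) (by positivity)
    _ = _ := by ring

theorem cmp_ga1 : Cmp 2 (ga 1) (ga 1) := by
  intro ρ h
  rw [ga_Dq h, ← integral_const_mul]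
  refine integral_mono (g_ri h one_pos) ((g_ri h two_pos).const_mul 2) fun y => ?_
  have h1 := mul_le_mul_of_nonneg_left (g_le y) (sq_nonneg (ρ y))
  simp only
  linarith

theorem cmp_ga2 : Cmp 2 (ga 1) (ga 2) := by
  intro ρ h
  have h1 : 0 ≤ Dq (ga 1) ρ := by
    rw [ga_Dq h]
    exact integral_nonneg fun y => mul_nonneg (sq_nonneg _) (g_nonneg 2 y)
  have h2 := ga_Dq h
  linarith

end Pool.Agent.MOZ
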