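import Pool.Agent.MOZ.Defs
import Pool.Agent.MOZ.Ga
import Pool.Agent.MO.Contr

/-!
# MOZ-Gc: complex Gaussian kernels near one are contractions

`gc_integral`: `integral_gaussian_complex` (`∫ exp(-b x²) = (π/b)^(1/2)` with `b = θ²/2`, `Re b > 0`; the root of `2π/θ²` is
`√(2π)/θ` because `Re θ > 0`: principal branch, or compare squares and continuity; e.g. `(2π/θ²)^(1/2)`: write
`2π/θ² = (√(2π)/θ)^2` and use `Complex.cpow` with `|arg (1/θ)| < π/2`).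
`gc_bound`: `f(θ) = θ exp(-θ²x²/2)`, `f' = (1 - θ²x²) exp(-θ²x²/2)`; for `‖θ - 1‖ ≤ 1/8`: `Re θ² ≥ 3/4`, `‖θ‖ ≤ 9/8`, so
`‖f'‖ ≤ (1 + 2x²) e^{-3x²/8} ≤ 7 e^{-x²/4}` (`x² e^{-x²/8} ≤ 8/e`). Mean value inequality on the (convex) ball:
`‖gc θ x - ga 1 x‖ ≤ (2π)^(-1/2) 7 ‖θ-1‖ e^{-x²/4} ≤ 16 ‖θ-1‖ ga 2 x`.
`g1`: `contr` with `K = 2`, `a = ga 1`, `s = ga 2`, `D = gc θ - ga 1`, gives `δ`; `r = min (1/8) (δ/16)`. Fields of `Pert`: `ga_dn`,
`cmp_ga1`, `cmp_ga2`, `gc_integral` and `ga_dn.one`.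
-/

set_option autoImplicit false

open MeasureTheory Set Pool.Agent.MO
open scoped ENNReal NNReal

namespace Pool.Agent.MOZ

private theorem c_tr (f : (Fin 1 → ℝ) → ℂ) (h : ℝ → ℂ) (e : ∀ x, f x = h (x 0)) :
    ∫ x, f x = ∫ t, h t := by
  rw [← (volume_preserving_funUnique (Fin 1) ℝ).integral_comp
    (MeasurableEquiv.measurableEmbedding _) h]
  exact integral_congr_ae (Filter.Eventually.of_forall e)

private theorem c_ti (f : (Fin 1 → ℝ) → ℂ) (h : ℝ → ℂ) (e : ∀ x, f x = h (x 0))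
    (hi : Integrable h) : Integrable f := by
  have h1 := ((volume_preserving_funUnique (Fin 1) ℝ).integrable_comp_emb
    (MeasurableEquiv.measurableEmbedding _) (g := h)).2 hi
  have h2 : f = h ∘ (MeasurableEquiv.funUnique (Fin 1) ℝ) := funext e
  rw [h2]
  exact h1

private theorem gc_eq (θ : ℂ) (x : Fin 1 → ℝ) : gc θ x =
    ((((Real.sqrt (2 * Real.pi))⁻¹ : ℝ) : ℂ) * θ) *
      Complex.exp (-(θ ^ 2 / 2) * ((x 0 : ℝ) : ℂ) ^ 2) := by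
  unfold gc
  rw [mul_assoc]
  congr 3
  ring

private theorem gc_re {θ : ℂ} (hθ : 0 < (θ ^ 2).re) : 0 < (θ ^ 2 / 2).re := by
  have h : (θ ^ 2 / 2).re = (θ ^ 2).re / 2 := by
    rw [show (2 : ℂ) = ((2 : ℝ) : ℂ) by norm_num, Complex.div_ofReal_re]
  rw [h]
  linarith

theorem gc_int {θ : ℂ} (hθ : 0 < (θ ^ 2).re) : Integrable (gc θ) := by
  refine c_ti (gc θ) (fun t => ((((Real.sqrt (2 * Real.pi))⁻¹ : ℝ) : ℂ) * θ) *
      Complex.exp (-(θ ^ 2 / 2) * (t : ℂ) ^ 2)) (gc_eq θ) ?_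
  exact (integrable_cexp_neg_mul_sq (gc_re hθ)).const_mul _

/-- the disc around one -/
private theorem disc {θ : ℂ} (hθ : ‖θ - 1‖ ≤ 1 / 8) :
    7 / 8 ≤ θ.re ∧ ‖θ‖ ≤ 9 / 8 ∧ 3 / 4 ≤ (θ ^ 2).re := by
  have h1 := (Complex.abs_re_le_norm (θ - 1)).trans hθ
  have h2 := (Complex.abs_im_le_norm (θ - 1)).trans hθ
  simp only [Complex.sub_re, Complex.one_re, Complex.sub_im, Complex.one_im, sub_zero] at h1 h2
  have h3 := abs_le.1 h1
  have h4 := abs_le.1 h2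
  have h5 : ‖θ‖ ≤ 9 / 8 := by
    have h6 : ‖θ‖ ≤ ‖θ - 1‖ + ‖(1 : ℂ)‖ := by
      have := norm_add_le (θ - 1) 1
      rwa [sub_add_cancel] at this
    rw [norm_one] at h6
    linarith
  refine ⟨by linarith, h5, ?_⟩
  have h6 : (θ ^ 2).re = θ.re ^ 2 - θ.im ^ 2 := by
    rw [sq, Complex.mul_re]
    ring
  rw [h6]
  nlinarith

theorem gc_integral {θ : ℂ} (hθ : ‖θ - 1‖ ≤ 1 / 8) : ∫ x, gc θ x = 1 := by
  obtain ⟨h1, -, h2⟩ := disc hθ
  have h3 : 0 < (θ ^ 2).re := by linarith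
  have hθ0 : θ ≠ 0 := by
    rintro rfl
    norm_num at h1
  have hpi := Real.pi_pos
  have hs : 0 < Real.sqrt (2 * Real.pi) := Real.sqrt_pos.2 (by positivity)
  have hsC : ((Real.sqrt (2 * Real.pi) : ℝ) : ℂ) ≠ 0 := by exact_mod_cast hs.ne'
  rw [c_tr (gc θ) (fun t => ((((Real.sqrt (2 * Real.pi))⁻¹ : ℝ) : ℂ) * θ) *
      Complex.exp (-(θ ^ 2 / 2) * (t : ℂ) ^ 2)) (gc_eq θ), integral_const_mul, integral_gaussian_complex (gc_re h3)]
  have h4 : ((Real.pi : ℂ) / (θ ^ 2 / 2)) ^ (1 / 2 : ℂ) =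
      ((Real.sqrt (2 * Real.pi) : ℝ) : ℂ) / θ := by
    have h5 : 0 < (((Real.sqrt (2 * Real.pi) : ℝ) : ℂ) / θ).re := by
      rw [Complex.div_re, Complex.ofReal_re, Complex.ofReal_im]
      have h6 : 0 < Complex.normSq θ := Complex.normSq_pos.2 hθ0
      have h7 : 0 < Real.sqrt (2 * Real.pi) * θ.re / Complex.normSq θ :=
        div_pos (mul_pos hs (by linarith)) h6
      simpa using h7
    have h6 := Complex.sq_cpow_two_inv h5
    have h7 : (((Real.sqrt (2 * Real.pi) : ℝ) : ℂ) / θ) ^ 2 =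
        (Real.pi : ℂ) / (θ ^ 2 / 2) := by
      rw [div_pow]
      have h8 : ((Real.sqrt (2 * Real.pi) : ℝ) : ℂ) ^ 2 = 2 * (Real.pi : ℂ) := by
        rw [← Complex.ofReal_pow, Real.sq_sqrt (by positivity)]
        push_cast
        rfl
      rw [h8]
      push_cast
      field_simp
    rw [h7] at h6
    rw [← h6, one_div]
  rw [h4]
  push_cast
  field_simp

private theorem exp_bd (u : ℝ) (hu : 0 ≤ u) : 1 + 16 * u ≤ 8 * Real.exp u := by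
  have h1 := Real.quadratic_le_exp_of_nonneg hu
  nlinarith [sq_nonneg (u - 1)]

private theorem f_bd (x : ℝ) {θ : ℂ} (hθ : ‖θ - 1‖ ≤ 1 / 8) :
    ‖θ * Complex.exp (-(θ ^ 2 * (x : ℂ) ^ 2 / 2)) - Complex.exp (-((x : ℂ) ^ 2 / 2))‖ ≤
      8 * Real.exp (-(x ^ 2 / 4)) * ‖θ - 1‖ := by
  have hd : ∀ z ∈ Metric.closedBall (1 : ℂ) (1 / 8), HasDerivWithinAt
      (fun w : ℂ => w * Complex.exp (-(w ^ 2 * (x : ℂ) ^ 2 / 2)))
      ((1 - z ^ 2 * (x : ℂ) ^ 2) * Complex.exp (-(z ^ 2 * (x : ℂ) ^ 2 / 2)))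
      (Metric.closedBall (1 : ℂ) (1 / 8)) z := by
    intro z _
    apply HasDerivAt.hasDerivWithinAt
    have h1 : HasDerivAt (fun w : ℂ => -(w ^ 2 * (x : ℂ) ^ 2 / 2))
        (-(((2 : ℕ) : ℂ) * z ^ (2 - 1) * (x : ℂ) ^ 2 / 2)) z :=
      (((hasDerivAt_pow 2 z).mul_const _).div_const _).neg
    have h2 := (hasDerivAt_id z).mul h1.cexp
    refine h2.congr_deriv ?_
    simp only [id_eq]
    push_cast
    ring
  have hb : ∀ z ∈ Metric.closedBall (1 : ℂ) (1 / 8),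
      ‖(1 - z ^ 2 * (x : ℂ) ^ 2) * Complex.exp (-(z ^ 2 * (x : ℂ) ^ 2 / 2))‖ ≤
        8 * Real.exp (-(x ^ 2 / 4)) := by
    intro z hz
    rw [mem_closedBall_iff_norm] at hz
    obtain ⟨-, h1, h2⟩ := disc hz
    rw [norm_mul, Complex.norm_exp]
    have h3 : (-(z ^ 2 * (x : ℂ) ^ 2 / 2)).re = -((z ^ 2).re * x ^ 2 / 2) := by
      have e : -(z ^ 2 * (x : ℂ) ^ 2 / 2) = z ^ 2 * ((-(x ^ 2 / 2) : ℝ) : ℂ) := by
        push_cast
        ring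
      rw [e, Complex.re_mul_ofReal]
      ring
    rw [h3]
    have hx := sq_nonneg x
    have h4 : ‖1 - z ^ 2 * (x : ℂ) ^ 2‖ ≤ 1 + 2 * x ^ 2 := by
      refine (norm_sub_le _ _).trans ?_
      rw [norm_one, norm_mul, norm_pow, norm_pow, Complex.norm_real, Real.norm_eq_abs, sq_abs]
      have h5 : ‖z‖ ^ 2 ≤ 2 := by
        have := norm_nonneg z
        nlinarith
      nlinarith
    have h5 : Real.exp (-((z ^ 2).re * x ^ 2 / 2)) ≤ Real.exp (-(x ^ 2 / 4)) *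
        Real.exp (-(x ^ 2 / 8)) := by
      rw [← Real.exp_add]
      apply Real.exp_le_exp.2
      nlinarith
    have h6 := exp_bd (x ^ 2 / 8) (by positivity)
    have h7 : (1 + 2 * x ^ 2) * Real.exp (-(x ^ 2 / 8)) ≤ 8 := by
      rw [Real.exp_neg, ← div_eq_mul_inv, div_le_iff₀ (Real.exp_pos _)]
      linarith
    calc ‖1 - z ^ 2 * (x : ℂ) ^ 2‖ * Real.exp (-((z ^ 2).re * x ^ 2 / 2))
        ≤ (1 + 2 * x ^ 2) * (Real.exp (-(x ^ 2 / 4)) * Real.exp (-(x ^ 2 / 8))) :=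
          mul_le_mul h4 h5 (Real.exp_pos _).le (by positivity)
      _ = ((1 + 2 * x ^ 2) * Real.exp (-(x ^ 2 / 8))) * Real.exp (-(x ^ 2 / 4)) := by ring
      _ ≤ 8 * Real.exp (-(x ^ 2 / 4)) := mul_le_mul_of_nonneg_right h7 (Real.exp_pos _).le
  have h1 := Convex.norm_image_sub_le_of_norm_hasDerivWithin_le hd hb
    (convex_closedBall (1 : ℂ) (1 / 8)) (Metric.mem_closedBall_self (by norm_num))
    (mem_closedBall_iff_norm.2 hθ)
  simpa using h1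

theorem gc_bound {θ : ℂ} (hθ : ‖θ - 1‖ ≤ 1 / 8) (x : Fin 1 → ℝ) :
    ‖gc θ x - (ga 1 x : ℂ)‖ ≤ 16 * ‖θ - 1‖ * ga 2 x := by
  have hpi := Real.pi_pos
  have h1 := f_bd (x 0) hθ
  have e : gc θ x - (ga 1 x : ℂ) = (((Real.sqrt (2 * Real.pi))⁻¹ : ℝ) : ℂ) *
      (θ * Complex.exp (-(θ ^ 2 * ((x 0 : ℝ) : ℂ) ^ 2 / 2)) -
        Complex.exp (-(((x 0 : ℝ) : ℂ) ^ 2 / 2))) := by
    unfold gc ga
    rw [mul_one, mul_one, mul_sub]
    push_cast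
    rfl
  rw [e, norm_mul, Complex.norm_real, Real.norm_of_nonneg (by positivity)]
  have h2 : (Real.sqrt (2 * Real.pi))⁻¹ ≤ 2 * (Real.sqrt (2 * Real.pi * 2))⁻¹ := by
    have h3 : Real.sqrt (2 * Real.pi * 2) ≤ 2 * Real.sqrt (2 * Real.pi) := by
      rw [Real.sqrt_le_left (by positivity), mul_pow, Real.sq_sqrt (by positivity)]
      nlinarith
    have h4 : 0 < Real.sqrt (2 * Real.pi * 2) := Real.sqrt_pos.2 (by positivity)
    have h5 : 0 < Real.sqrt (2 * Real.pi) := Real.sqrt_pos.2 (by positivity)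
    rw [← div_eq_mul_inv, inv_eq_one_div, div_le_div_iff₀ h5 h4]
    linarith
  calc (Real.sqrt (2 * Real.pi))⁻¹ * _ ≤ (2 * (Real.sqrt (2 * Real.pi * 2))⁻¹) *
        (8 * Real.exp (-((x 0) ^ 2 / 4)) * ‖θ - 1‖) :=
        mul_le_mul h2 h1 (norm_nonneg _) (by positivity)
    _ = 16 * ‖θ - 1‖ * ga 2 x := by
        unfold ga
        rw [show (2 : ℝ) * 2 = 4 by norm_num]
        ring

theorem g1 {p : ℝ} (hp : 1 < p) (hp2 : p ≤ 2) :
    ∃ r : ℝ, 0 < r ∧ r ≤ 1 / 8 ∧ ∀ θ : ℂ, ‖θ - 1‖ ≤ r → NB p 1 (gc θ) := by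
  obtain ⟨δ, hδ, -, hc⟩ := contr p 2 hp hp2 (by norm_num)
  refine ⟨min (1 / 8) (δ / 16), lt_min (by norm_num) (by positivity), min_le_left _ _,
    fun θ hθ => ?_⟩
  have h8 : ‖θ - 1‖ ≤ 1 / 8 := hθ.trans (min_le_left _ _)
  have h16 : ‖θ - 1‖ ≤ δ / 16 := hθ.trans (min_le_right _ _)
  have hre : 0 < (θ ^ 2).re := by
    have := (disc h8).2.2
    linarith
  have hg1 : Dn (ga 1) := ga_dn one_pos
  have hg2 : Dn (ga 2) := ga_dn two_pos
  have hcont : Continuous (gc θ) := by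
    unfold gc
    fun_prop
  have hint1 : Integrable fun y : Fin 1 → ℝ => (ga 1 y : ℂ) := hg1.int.ofReal
  have hP : Pert 2 δ (ga 1) (ga 2) (fun y => gc θ y - (ga 1 y : ℂ)) := by
    refine ⟨hg1, hg2.toWt, ?_, ?_, ?_, ?_, cmp_ga1, cmp_ga2⟩
    · exact hcont.measurable.sub (Complex.measurable_ofReal.comp hg1.meas)
    · intro y
      have h1 : gc θ (-y) = gc θ y := by simp [gc]
      rw [h1, hg1.even]
    · have h2 : ∫ y : Fin 1 → ℝ, (ga 1 y : ℂ) = ((∫ y, ga 1 y : ℝ) : ℂ) := integral_ofReal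
      rw [integral_sub (gc_int hre) hint1, gc_integral h8, h2, hg1.one]
      simp
    · intro y
      refine (gc_bound h8 y).trans ?_
      refine mul_le_mul_of_nonneg_right ?_ (hg2.nonneg y)
      linarith
  have h := hc (Fin 1 → ℝ) (ga 1) (ga 2) _ hP
  have e : (fun y : Fin 1 → ℝ => (ga 1 y : ℂ) + (gc θ y - (ga 1 y : ℂ))) = gc θ := by
    funext y
    ring
  rwa [e] at h

end Pool.Agent.MOZ
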