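import Pool.Agent.MOZ.Defs
import Pool.Agent.MO.Opb

/-!
# MOZ-Lin: linear changes of variables

`volume.map T` is an additive Haar measure on `F`, hence `κ • volume` with `0 < κ < ∞`; the averaging operator with
kernel `G ∘ T` is conjugate to `κ` times the one with kernel `G`.
-/

set_option autoImplicit false

open MeasureTheory Set Pool.Agent.MO
open scoped ENNReal NNReal

namespace Pool.Agent.MOZ

theorem nb_lin {E F : Type} [NormedAddCommGroup E] [NormedSpace ℝ E] [FiniteDimensional ℝ E]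
    [MeasureSpace E] [BorelSpace E] [Measure.IsAddHaarMeasure (volume : Measure E)]
    [NormedAddCommGroup F] [NormedSpace ℝ F] [FiniteDimensional ℝ F]
    [MeasureSpace F] [BorelSpace F] [Measure.IsAddHaarMeasure (volume : Measure F)]
    (T : E ≃L[ℝ] F) :
    ∃ κ : ℝ, 0 < κ ∧ (∀ g : F → ℝ, ∫ x, g (T x) = κ * ∫ y, g y) ∧
      ∀ (p c : ℝ) (G : F → ℂ), 0 < p → 0 ≤ c → NB p c G → NB p (κ * c) fun x => G (T x) := by
  have hmap : (volume : Measure E).map T =
      Measure.addHaarScalarFactor ((volume : Measure E).map T) (volume : Measure F) •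
        (volume : Measure F) :=
    Measure.isAddLeftInvariant_eq_smul _ _
  set k : ℝ≥0 := Measure.addHaarScalarFactor ((volume : Measure E).map T) (volume : Measure F)
    with hk
  have hk0 : 0 < k := Measure.addHaarScalarFactor_pos_of_isAddHaarMeasure _ _
  have hme : MeasurableEmbedding T := T.toHomeomorph.measurableEmbedding
  have hlint : ∀ h : F → ℝ≥0∞, ∫⁻ x, h (T x) = (k : ℝ≥0∞) * ∫⁻ y, h y := by
    intro h
    rw [← hme.lintegral_map, hmap, lintegral_smul_measure]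
    rfl
  have hint : ∀ {X : Type} [NormedAddCommGroup X] [NormedSpace ℝ X] (g : F → X),
      ∫ x, g (T x) = (k : ℝ) • ∫ y, g y := by
    intro X _ _ g
    rw [← hme.integral_map, hmap, integral_smul_nnreal_measure]
    rfl
  refine ⟨(k : ℝ), hk0, fun g => by rw [hint g, smul_eq_mul], ?_⟩
  intro p c G hp hc hG f hf
  have hf' : TF fun z => f (T.symm z) :=
    ⟨hf.1.comp T.symm.continuous, hf.2.comp_homeomorph T.symm.toHomeomorph⟩
  have hop : ∀ x, op (fun x => G (T x)) f x = (k : ℝ) • op G (fun z => f (T.symm z)) (T x) := by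
    intro x
    have h1 := hint fun z => G z * f (T.symm (T x + z))
    rw [op, op, ← h1]
    refine integral_congr_ae (Filter.Eventually.of_forall fun y => ?_)
    show G (T y) * f (x + y) = G (T y) * f (T.symm (T x + T y))
    rw [map_add, T.symm_apply_apply, T.symm_apply_apply]
  have hkt : ((k : ℝ≥0∞)) ^ p ≠ ∞ := ENNReal.rpow_ne_top_of_nonneg hp.le ENNReal.coe_ne_top
  have hof : ENNReal.ofReal ((k : ℝ) * c) = (k : ℝ≥0∞) * ENNReal.ofReal c := by
    rw [ENNReal.ofReal_mul k.coe_nonneg, ENNReal.ofReal_coe_nnreal]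
  calc ∫⁻ x, ‖op (fun x => G (T x)) f x‖ₑ ^ p
      = ∫⁻ x, (k : ℝ≥0∞) ^ p * ‖op G (fun z => f (T.symm z)) (T x)‖ₑ ^ p := by
        refine lintegral_congr fun x => ?_
        rw [hop x, enorm_smul, ENNReal.mul_rpow_of_nonneg _ _ hp.le]
        congr 2
        rw [Real.enorm_eq_ofReal k.coe_nonneg, ENNReal.ofReal_coe_nnreal]
    _ = (k : ℝ≥0∞) ^ p * ((k : ℝ≥0∞) * ∫⁻ y, ‖op G (fun z => f (T.symm z)) y‖ₑ ^ p) := by
        rw [lintegral_const_mul' _ _ hkt, hlint fun y => ‖op G (fun z => f (T.symm z)) y‖ₑ ^ p]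
    _ ≤ (k : ℝ≥0∞) ^ p * ((k : ℝ≥0∞) *
          (ENNReal.ofReal c ^ p * ∫⁻ y, ‖f (T.symm y)‖ₑ ^ p)) := by
        gcongr
        exact hG _ hf'
    _ = (k : ℝ≥0∞) ^ p * (ENNReal.ofReal c ^ p * ((k : ℝ≥0∞) * ∫⁻ y, ‖f (T.symm y)‖ₑ ^ p)) := by
        ring
    _ = ENNReal.ofReal ((k : ℝ) * c) ^ p * ∫⁻ x, ‖f x‖ₑ ^ p := by
        rw [← hlint fun y => ‖f (T.symm y)‖ₑ ^ p, hof, ENNReal.mul_rpow_of_nonneg _ _ hp.le,
          mul_assoc]
        simp only [T.symm_apply_apply]

end Pool.Agent.MOZ
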