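import Pool.Agent.MOZ.Defs
import Pool.Agent.MOZ.Ga
import Pool.Agent.MOZ.Gc
import Pool.Agent.MOZ.Lin
import Pool.Agent.MO.Tens
import Pool.Agent.MO.ProdL

/-!
# MZ-Form: complex Gaussian kernels of positive definite quadratic forms

`qf a v` is a positive definite quadratic form (`Nd a`, `v i > 0`): the symmetric matrix `A = ∑ v i a_i a_iᵀ` is positive
definite, so `A = BᵀB` with `B` invertible (e.g. `Matrix.posSemidef_iff_eq_conjTranspose_mul_self`, or `CFC.sqrt`, or an orthonormal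
basis of the inner product given by the form), i.e. `qf a v x = ∑ j, (B x)_j^2`. Let
`T : (Fin n → ℝ) ≃L[ℝ] (∀ _ : Fin n, Fin 1 → ℝ)`, `T x j 0 = (B x)_j` (`exists_T`).
`tens` (blocks `Fin 1 → ℝ`, all kernels `gc θ`): `NB p 1 (y ↦ ∏ j, gc θ (y j))`; `nb_lin` for `T`: `NB p κ (x ↦ ∏ j, gc θ (T x j))`,
`∏ j, gc θ (T x j) = (2π)^(-n/2) θ^n exp(-θ² qf/2)`; multiply by `(2π)^(n/2)` (`nb_smul`):
`NB p (κ (2π)^(n/2)) (θ^n exp(-θ² qf/2))`, and `∫ exp(-qf/2) = κ ∫ ∏ j exp(-(y j 0)²/2) = κ (2π)^(n/2)`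
(`integral_fintype_prod_volume_eq_prod`, `ga_dn`).
-/

set_option autoImplicit false

open MeasureTheory Set Pool.Agent.MO
open scoped ENNReal NNReal

namespace Pool.Agent.MOZ

open scoped MatrixOrder in
theorem exists_T {n M : ℕ} {a : Fin M → Fin n → ℝ} (ha : Nd a) {v : Fin M → ℝ}
    (hv : ∀ i, 0 < v i) :
    ∃ T : (Fin n → ℝ) ≃L[ℝ] (∀ _ : Fin n, Fin 1 → ℝ), ∀ x, qf a v x = ∑ j, (T x j 0) ^ 2 := by
  classical
  let C : Matrix (Fin M) (Fin n) ℝ := Matrix.of fun i j => Real.sqrt (v i) * a i j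
  have hCx : ∀ x i, C.mulVec x i = Real.sqrt (v i) * ∑ j, a i j * x j := by
    intro x i
    rw [Finset.mul_sum]
    show ∑ j, Real.sqrt (v i) * a i j * x j = _
    exact Finset.sum_congr rfl fun j _ => mul_assoc _ _ _
  have hC : ∀ x, ∑ i, (C.mulVec x i) ^ 2 = qf a v x := by
    intro x
    refine Finset.sum_congr rfl fun i _ => ?_
    rw [hCx, mul_pow, Real.sq_sqrt (hv i).le]
  have hpsd : (C.conjTranspose * C).PosSemidef := Matrix.posSemidef_conjTranspose_mul_self C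
  obtain ⟨B, hB⟩ := CStarAlgebra.nonneg_iff_eq_star_mul_self.mp hpsd.nonneg
  rw [Matrix.star_eq_conjTranspose] at hB
  have h1 : ∀ (m : ℕ) (D : Matrix (Fin m) (Fin n) ℝ) (x : Fin n → ℝ),
      ∑ j, (D.mulVec x j) ^ 2 = dotProduct x ((D.conjTranspose * D).mulVec x) := by
    intro m D x
    rw [← Matrix.mulVec_mulVec, Matrix.dotProduct_mulVec,
      Matrix.conjTranspose_eq_transpose_of_trivial, Matrix.vecMul_transpose]
    exact Finset.sum_congr rfl fun j _ => by rw [sq]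
  have hBx : ∀ x, ∑ j, (B.mulVec x j) ^ 2 = qf a v x := by
    intro x
    rw [← hC, h1, h1, hB]
  let f : (Fin n → ℝ) →ₗ[ℝ] (∀ _ : Fin n, Fin 1 → ℝ) :=
    { toFun := fun x j _ => B.mulVec x j
      map_add' := fun x y => by
        funext j k
        rw [Matrix.mulVec_add]
        rfl
      map_smul' := fun c x => by
        funext j k
        rw [Matrix.mulVec_smul]
        rfl }
  have hf : Function.Injective f := by
    rw [← LinearMap.ker_eq_bot, LinearMap.ker_eq_bot']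
    intro x hx
    have h2 : ∀ j, B.mulVec x j = 0 := fun j => congrFun (congrFun hx j) 0
    have h3 : qf a v x = 0 := by
      rw [← hBx]
      exact Finset.sum_eq_zero fun j _ => by rw [h2 j]; norm_num
    refine ha x fun i => ?_
    have h4 := (Finset.sum_eq_zero_iff_of_nonneg (fun i _ =>
      mul_nonneg (hv i).le (sq_nonneg _))).1 h3 i (Finset.mem_univ i)
    rcases mul_eq_zero.1 h4 with h5 | h5
    · exact absurd h5 (hv i).ne'
    · exact pow_eq_zero_iff (two_ne_zero) |>.1 h5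
  have hd : Module.finrank ℝ (Fin n → ℝ) = Module.finrank ℝ (∀ _ : Fin n, Fin 1 → ℝ) := by
    rw [Module.finrank_fin_fun, Module.finrank_pi_fintype]
    simp
  refine ⟨(LinearMap.linearEquivOfInjective f hf hd).toContinuousLinearEquiv, fun x => ?_⟩
  rw [← hBx]
  refine Finset.sum_congr rfl fun j _ => ?_
  have h6 : (LinearMap.linearEquivOfInjective f hf hd).toContinuousLinearEquiv x = f x :=
    LinearMap.linearEquivOfInjective_apply hf hd x
  rw [h6]
  rfl

/-- the one dimensional integral -/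
private theorem int_one {c : ℝ} (hc : 0 < c) :
    ∫ x : Fin 1 → ℝ, Real.exp (-(c * x 0 ^ 2)) = Real.sqrt (2 * Real.pi * (1 / (2 * c))) := by
  have hv : 0 < 1 / (2 * c) := by positivity
  have h1 := (ga_dn hv).one
  have h2 : ∀ x : Fin 1 → ℝ, ga (1 / (2 * c)) x =
      (Real.sqrt (2 * Real.pi * (1 / (2 * c))))⁻¹ * Real.exp (-(c * x 0 ^ 2)) := by
    intro x
    unfold ga
    congr 3
    field_simp
  simp_rw [h2] at h1
  rw [integral_const_mul] at h1
  have h3 : 0 < Real.sqrt (2 * Real.pi * (1 / (2 * c))) := Real.sqrt_pos.2 (by positivity)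
  exact ((inv_mul_eq_one₀ h3.ne').1 h1).symm

private theorem int_form {n M : ℕ} {a : Fin M → Fin n → ℝ} {v : Fin M → ℝ} {c κ : ℝ} (hc : 0 < c)
    (T : (Fin n → ℝ) ≃L[ℝ] (∀ _ : Fin n, Fin 1 → ℝ))
    (hT : ∀ x, qf a v x = ∑ j, (T x j 0) ^ 2)
    (hint : ∀ g : (∀ _ : Fin n, Fin 1 → ℝ) → ℝ, ∫ x, g (T x) = κ * ∫ y, g y) :
    ∫ x : Fin n → ℝ, Real.exp (-(c * qf a v x)) =
      κ * Real.sqrt (2 * Real.pi * (1 / (2 * c))) ^ n := by
  have h1 : ∀ x : Fin n → ℝ, Real.exp (-(c * qf a v x)) =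
      (fun y : (∀ _ : Fin n, Fin 1 → ℝ) => ∏ j, Real.exp (-(c * y j 0 ^ 2))) (T x) := by
    intro x
    simp only
    rw [← Real.exp_sum, hT, Finset.mul_sum, Finset.sum_neg_distrib]
  rw [integral_congr_ae (Filter.Eventually.of_forall h1)]
  refine (hint fun y => ∏ j, Real.exp (-(c * y j 0 ^ 2))).trans ?_
  rw [integral_fintype_prod_volume_eq_prod
    (fun (_ : Fin n) (z : Fin 1 → ℝ) => Real.exp (-(c * z 0 ^ 2)))]
  rw [int_one hc, Finset.prod_const, Finset.card_univ, Fintype.card_fin]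

theorem form {n M : ℕ} {a : Fin M → Fin n → ℝ} (ha : Nd a) {v : Fin M → ℝ}
    (hv : ∀ i, 0 < v i) {p : ℝ} (hp : 1 ≤ p) {θ : ℂ} (hθ : 0 < (θ ^ 2).re)
    (h : NB p 1 (gc θ)) :
    NB p (∫ x, Real.exp (-(qf a v x / 2))) fun x : Fin n → ℝ =>
      θ ^ n * Complex.exp (-(θ ^ 2 * (qf a v x : ℂ) / 2)) := by
  obtain ⟨T, hT⟩ := exists_T ha hv
  obtain ⟨κ, hκ, hint, hNB⟩ := nb_lin T
  have h1 := tens hp n (fun _ => 1) (fun _ => gc θ) (fun _ => gc_int hθ) (fun _ => h)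
  have h2 := hNB p 1 _ (by linarith) zero_le_one h1
  have h3 := nb_smul (by linarith : (0 : ℝ) ≤ p) (by linarith : 0 ≤ κ * 1) h2
    (((Real.sqrt (2 * Real.pi) : ℝ) : ℂ) ^ n)
  have hs : 0 < Real.sqrt (2 * Real.pi) := Real.sqrt_pos.2 (by positivity)
  have h4 : κ * 1 * ‖((Real.sqrt (2 * Real.pi) : ℝ) : ℂ) ^ n‖ =
      ∫ x, Real.exp (-(qf a v x / 2)) := by
    have h5 := int_form (c := 1 / 2) (by norm_num) T hT hint
    have h6 : ∀ x, Real.exp (-(qf a v x / 2)) = Real.exp (-(1 / 2 * qf a v x)) := by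
      intro x
      congr 2
      ring
    simp_rw [h6]
    rw [h5, norm_pow, Complex.norm_real, Real.norm_of_nonneg hs.le, mul_one]
    norm_num
  rw [h4] at h3
  have h7 : (fun y : Fin n → ℝ => ((Real.sqrt (2 * Real.pi) : ℝ) : ℂ) ^ n *
      ∏ j : Fin n, gc θ (T y j)) = fun x : Fin n → ℝ =>
      θ ^ n * Complex.exp (-(θ ^ 2 * (qf a v x : ℂ) / 2)) := by
    funext x
    have h8 : ∏ j : Fin n, gc θ (T x j) = (((Real.sqrt (2 * Real.pi))⁻¹ : ℝ) : ℂ) ^ n *
        (θ ^ n * Complex.exp (-(θ ^ 2 * (qf a v x : ℂ) / 2))) := by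
      unfold gc
      rw [Finset.prod_mul_distrib, Finset.prod_mul_distrib, Finset.prod_const, Finset.prod_const,
        Finset.card_univ, Fintype.card_fin, ← Complex.exp_sum, hT]
      congr 3
      push_cast
      rw [Finset.mul_sum, Finset.sum_div, Finset.sum_neg_distrib]
    rw [h8, ← mul_assoc, ← mul_pow, ← Complex.ofReal_mul, mul_inv_cancel₀ hs.ne',
      Complex.ofReal_one, one_pow, one_mul]
  rw [h7] at h3
  exact h3

theorem form_int {n M : ℕ} {a : Fin M → Fin n → ℝ} (ha : Nd a) {v : Fin M → ℝ}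
    (hv : ∀ i, 0 < v i) {c : ℝ} (hc : 0 < c) :
    Integrable (fun x : Fin n → ℝ => Real.exp (-(c * qf a v x))) ∧
      0 < ∫ x : Fin n → ℝ, Real.exp (-(c * qf a v x)) := by
  obtain ⟨T, hT⟩ := exists_T ha hv
  obtain ⟨κ, hκ, hint, -⟩ := nb_lin T
  have h1 := int_form hc T hT hint
  have h2 : 0 < ∫ x : Fin n → ℝ, Real.exp (-(c * qf a v x)) := by
    rw [h1]
    have h3 : 0 < Real.sqrt (2 * Real.pi * (1 / (2 * c))) := Real.sqrt_pos.2 (by positivity)
    positivity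
  refine ⟨?_, h2⟩
  by_contra h3
  rw [integral_undef h3] at h2
  exact lt_irrefl _ h2

end Pool.Agent.MOZ
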