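import Pool.Agent.MO.Opb

/-!
# MOZ-Mix: mixtures of kernels

If almost every kernel `G ω` has norm at most `c ω`, then the mixture `∫ G ω dν` has norm at most
`∫ c dν` (Fubini, the Hölder inequality with the weight `c`, Tonelli).
-/

set_option autoImplicit false

open MeasureTheory Set Pool.Agent.MO
open scoped ENNReal NNReal

namespace Pool.Agent.MOZ

variable {E : Type} [NormedAddCommGroup E] [NormedSpace ℝ E] [FiniteDimensional ℝ E]
  [MeasureSpace E] [BorelSpace E] [Measure.IsAddHaarMeasure (volume : Measure E)]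

/-- Hölder with a weight: `(∫ u)^p ≤ (∫ ω)^(p-1) (∫ ω (u/ω)^p)`. -/
private theorem mix_holder {Ω : Type} [MeasurableSpace Ω] {μ : Measure Ω} {p : ℝ} (hp : 1 < p)
    {w u : Ω → ℝ≥0∞} (hw : Measurable w) (hu : Measurable u) (hw0 : ∀ τ, w τ ≠ 0)
    (hwt : ∀ τ, w τ ≠ ∞) :
    (∫⁻ τ, u τ ∂μ) ^ p ≤ (∫⁻ τ, w τ ∂μ) ^ (p - 1) * ∫⁻ τ, w τ * (u τ / w τ) ^ p ∂μ := by
  have hp0 : 0 < p := by linarith
  have hpq : p.HolderConjugate (Real.conjExponent p) := Real.HolderConjugate.conjExponent hp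
  set q := Real.conjExponent p with hq
  have hq0 : 0 < q := hpq.symm.pos
  have hpq1 : 1 / p + 1 / q = 1 := by
    have := hpq.inv_add_inv_eq_one
    rwa [← one_div, ← one_div] at this
  have h1 : ∀ τ, u τ = ((w τ) ^ (1 / p) * (u τ / w τ)) * (w τ) ^ (1 / q) := by
    intro τ
    have h2 : (w τ) ^ (1 / p) * (w τ) ^ (1 / q) = w τ := by
      rw [← ENNReal.rpow_add _ _ (hw0 τ) (hwt τ), hpq1, ENNReal.rpow_one]
    calc u τ = w τ * (u τ / w τ) := by
          rw [ENNReal.mul_div_cancel (hw0 τ) (hwt τ)]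
      _ = ((w τ) ^ (1 / p) * (w τ) ^ (1 / q)) * (u τ / w τ) := by rw [h2]
      _ = _ := by ring
  have h2 := ENNReal.lintegral_mul_le_Lp_mul_Lq μ hpq
    (f := fun τ => (w τ) ^ (1 / p) * (u τ / w τ)) (g := fun τ => (w τ) ^ (1 / q))
    (((hw.pow_const _).mul (hu.div hw)).aemeasurable)
    ((hw.pow_const _).aemeasurable)
  have h3 : ∫⁻ τ, u τ ∂μ = ∫⁻ a, ((fun τ => (w τ) ^ (1 / p) * (u τ / w τ)) *
      fun τ => (w τ) ^ (1 / q)) a ∂μ := lintegral_congr h1
  rw [← h3] at h2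
  have h4 : ∀ τ, ((w τ) ^ (1 / p) * (u τ / w τ)) ^ p = w τ * (u τ / w τ) ^ p := by
    intro τ
    rw [ENNReal.mul_rpow_of_nonneg _ _ hp0.le, ← ENNReal.rpow_mul, one_div,
      inv_mul_cancel₀ hp0.ne', ENNReal.rpow_one]
  have h5 : ∀ τ, ((w τ) ^ (1 / q)) ^ q = w τ := by
    intro τ
    rw [← ENNReal.rpow_mul, one_div, inv_mul_cancel₀ hq0.ne', ENNReal.rpow_one]
  simp only [h4, h5] at h2
  have h6 := ENNReal.rpow_le_rpow h2 hp0.le
  rw [ENNReal.mul_rpow_of_nonneg _ _ hp0.le, ← ENNReal.rpow_mul, ← ENNReal.rpow_mul, one_div,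
    inv_mul_cancel₀ hp0.ne', ENNReal.rpow_one] at h6
  have h7 : 1 / q * p = p - 1 := by
    have h8 : 1 / q = 1 - 1 / p := by linarith
    rw [h8, sub_mul, one_mul, one_div, inv_mul_cancel₀ hp0.ne']
  rw [h7] at h6
  rw [mul_comm]
  exact h6

private theorem mix_aux {Ω : Type} [MeasurableSpace Ω] (ν : Measure Ω) [SigmaFinite ν] {p : ℝ}
    (hp : 1 < p) {c : Ω → ℝ} (hc : Integrable c ν) (hcm : Measurable c) (hc0 : ∀ ω, 0 < c ω)
    {G : Ω → E → ℂ} (hG : Measurable (Function.uncurry G))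
    (hGi : Integrable (Function.uncurry G) (ν.prod (volume : Measure E)))
    (h : ∀ᵐ ω ∂ν, NB p (c ω) (G ω)) :
    NB p (∫ ω, c ω ∂ν) fun x => ∫ ω, G ω x ∂ν := by
  intro f hf
  obtain ⟨C, hC⟩ := hf.bdd
  have hp0 : 0 < p := by linarith
  -- joint measurability
  have hU : StronglyMeasurable fun z : E × Ω => op (G z.2) f z.1 := by
    have h1 : Measurable (Function.uncurry fun (z : E × Ω) (y : E) => G z.2 y * f (z.1 + y)) := by
      refine Measurable.mul ?_ ?_
      · exact hG.comp ((measurable_snd.comp measurable_fst).prodMk measurable_snd)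
      · exact hf.1.measurable.comp ((measurable_fst.comp measurable_fst).add measurable_snd)
    exact h1.stronglyMeasurable.integral_prod_right
  have hop : ∀ x, op (fun y => ∫ ω, G ω y ∂ν) f x = ∫ ω, op (G ω) f x ∂ν := by
    intro x
    unfold op
    have h1 : ∀ y, (∫ ω, G ω y ∂ν) * f (x + y) = ∫ ω, G ω y * f (x + y) ∂ν := by
      intro y
      rw [← integral_mul_const]
    simp only [h1]
    rw [integral_integral_swap]
    have h2 : Integrable (fun z : E × Ω => C * ‖G z.2 z.1‖) ((volume : Measure E).prod ν) :=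
      (hGi.swap.norm).const_mul C
    have h3 : Measurable (Function.uncurry fun (y : E) (ω : Ω) => G ω y * f (x + y)) := by
      refine Measurable.mul ?_ ?_
      · exact hG.comp (measurable_snd.prodMk measurable_fst)
      · exact hf.1.measurable.comp (measurable_const.add measurable_fst)
    refine h2.mono' h3.aestronglyMeasurable (Filter.Eventually.of_forall fun z => ?_)
    show ‖G z.2 z.1 * f (x + z.1)‖ ≤ C * ‖G z.2 z.1‖
    rw [norm_mul, mul_comm]
    exact mul_le_mul_of_nonneg_right (hC _) (norm_nonneg _)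
  set w : Ω → ℝ≥0∞ := fun τ => ENNReal.ofReal (c τ) with hw
  have hwm : Measurable w := ENNReal.measurable_ofReal.comp hcm
  have hw0 : ∀ τ, w τ ≠ 0 := fun τ => by
    rw [hw]
    exact (ENNReal.ofReal_pos.2 (hc0 τ)).ne'
  have hwt : ∀ τ, w τ ≠ ∞ := fun τ => ENNReal.ofReal_ne_top
  set W : ℝ≥0∞ := ∫⁻ τ, w τ ∂ν with hW
  have hWe : ENNReal.ofReal (∫ τ, c τ ∂ν) = W := by
    rw [ofReal_integral_eq_lintegral_ofReal hc (Filter.Eventually.of_forall fun τ => (hc0 τ).le)]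
  have hWt : W ≠ ∞ := by
    rw [← hWe]
    exact ENNReal.ofReal_ne_top
  set N : ℝ≥0∞ := ∫⁻ x, ‖f x‖ₑ ^ p with hN
  rw [hWe]
  have hux : ∀ x, Measurable fun τ => ‖op (G τ) f x‖ₑ := fun x =>
    (hU.measurable.comp (measurable_const.prodMk measurable_id)).enorm
  have hux' : ∀ τ, Measurable fun x => ‖op (G τ) f x‖ₑ := fun τ =>
    (hU.measurable.comp (measurable_id.prodMk measurable_const)).enorm
  have h1 : ∀ x, ‖op (fun y => ∫ τ, G τ y ∂ν) f x‖ₑ ^ p ≤
      W ^ (p - 1) * ∫⁻ τ, w τ * (‖op (G τ) f x‖ₑ / w τ) ^ p ∂ν := by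
    intro x
    refine le_trans (ENNReal.rpow_le_rpow ?_ hp0.le)
      (mix_holder (μ := ν) hp hwm (hux x) hw0 hwt)
    rw [hop x]
    exact enorm_integral_le_lintegral_enorm _
  have hjm : Measurable (Function.uncurry fun (x : E) (τ : Ω) =>
      w τ * (‖op (G τ) f x‖ₑ / w τ) ^ p) := by
    refine Measurable.mul ?_ ?_
    · exact hwm.comp measurable_snd
    · exact (hU.measurable.enorm.div (hwm.comp measurable_snd)).pow_const p
  calc ∫⁻ x, ‖op (fun y => ∫ τ, G τ y ∂ν) f x‖ₑ ^ p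
      ≤ ∫⁻ x, W ^ (p - 1) * ∫⁻ τ, w τ * (‖op (G τ) f x‖ₑ / w τ) ^ p ∂ν :=
        lintegral_mono h1
    _ = W ^ (p - 1) * ∫⁻ x, ∫⁻ τ, w τ * (‖op (G τ) f x‖ₑ / w τ) ^ p ∂ν := by
        refine lintegral_const_mul _ ?_
        exact hjm.lintegral_prod_right'
    _ = W ^ (p - 1) * ∫⁻ τ, (∫⁻ x : E, w τ * (‖op (G τ) f x‖ₑ / w τ) ^ p) ∂ν := by
        rw [lintegral_lintegral_swap hjm.aemeasurable]
    _ ≤ W ^ (p - 1) * ∫⁻ τ, w τ * N ∂ν := by
        refine mul_le_mul_right ?_ _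
        refine lintegral_mono_ae ?_
        refine h.mono fun τ hτ => ?_
        have h2 : ∫⁻ x : E, w τ * (‖op (G τ) f x‖ₑ / w τ) ^ p =
            w τ * ∫⁻ x : E, (‖op (G τ) f x‖ₑ / w τ) ^ p :=
          lintegral_const_mul _ (((hux' τ).div_const _).pow_const p)
        rw [h2]
        refine mul_le_mul_right ?_ _
        have h3 : ∀ x : E, (‖op (G τ) f x‖ₑ / w τ) ^ p = ‖op (G τ) f x‖ₑ ^ p * (w τ ^ p)⁻¹ := by
          intro x
          rw [ENNReal.div_rpow_of_nonneg _ _ hp0.le, div_eq_mul_inv]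
        simp only [h3]
        rw [lintegral_mul_const _ ((hux' τ).pow_const p)]
        have h4 := hτ f hf
        have h5 : w τ ^ p ≠ 0 := by
          rw [Ne, ENNReal.rpow_eq_zero_iff]
          push Not
          exact ⟨fun h0 => absurd h0 (hw0 τ), fun h0 => absurd h0 (hwt τ)⟩
        have h6 : w τ ^ p ≠ ∞ := ENNReal.rpow_ne_top_of_nonneg hp0.le (hwt τ)
        calc (∫⁻ x, ‖op (G τ) f x‖ₑ ^ p) * (w τ ^ p)⁻¹ ≤ (w τ ^ p * N) * (w τ ^ p)⁻¹ :=
              mul_le_mul_left h4 _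
          _ = N := by
              rw [mul_comm (w τ ^ p) N, mul_assoc, ENNReal.mul_inv_cancel h5 h6, mul_one]
    _ = W ^ p * N := by
        have h7 : ∫⁻ τ, w τ * N ∂ν = W * N := lintegral_mul_const N hwm
        rw [h7, ← mul_assoc]
        congr 1
        by_cases h0 : W = 0
        · rw [h0, mul_zero, ENNReal.zero_rpow_of_pos hp0]
        · calc W ^ (p - 1) * W = W ^ (p - 1) * W ^ (1 : ℝ) := by rw [ENNReal.rpow_one]
            _ = W ^ p := by rw [← ENNReal.rpow_add _ _ h0 hWt, sub_add_cancel]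

theorem nb_mix {Ω : Type} [MeasurableSpace Ω] (ν : Measure Ω) [SigmaFinite ν] {p : ℝ} (hp : 1 < p)
    {c : Ω → ℝ} (hc : Integrable c ν) (hc0 : ∀ᵐ ω ∂ν, 0 < c ω) {G : Ω → E → ℂ}
    (hG : Measurable (Function.uncurry G))
    (hGi : Integrable (Function.uncurry G) (ν.prod (volume : Measure E)))
    (h : ∀ᵐ ω ∂ν, NB p (c ω) (G ω)) :
    NB p (∫ ω, c ω ∂ν) fun x => ∫ ω, G ω x ∂ν := by
  classical
  have hm := hc.aestronglyMeasurable
  set c1 : Ω → ℝ := hm.mk c with hc1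
  have hc1m : Measurable c1 := hm.stronglyMeasurable_mk.measurable
  have hc1e : c =ᵐ[ν] c1 := hm.ae_eq_mk
  set c2 : Ω → ℝ := fun ω => if 0 < c1 ω then c1 ω else 1 with hc2
  have hc2m : Measurable c2 :=
    Measurable.ite (measurableSet_lt measurable_const hc1m) hc1m measurable_const
  have hc2e : c =ᵐ[ν] c2 := by
    filter_upwards [hc1e, hc0] with ω h1 h2
    rw [h1] at h2
    rw [h1]
    show c1 ω = if 0 < c1 ω then c1 ω else 1
    rw [if_pos h2]
  have hc20 : ∀ ω, 0 < c2 ω := by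
    intro ω
    show 0 < if 0 < c1 ω then c1 ω else 1
    split_ifs with h1
    · exact h1
    · exact zero_lt_one
  rw [integral_congr_ae hc2e]
  refine mix_aux ν hp (hc.congr hc2e) hc2m hc20 hG hGi ?_
  filter_upwards [hc2e, h] with ω h1 h2
  rw [← h1]
  exact h2

end Pool.Agent.MOZ
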