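import Pool.Agent.MOZ.SubR

/-!
# MZ-SubC: the subordination identity, complex case

Both sides are bounded by `1` for `w > 0`. If `s = 0` use `sm_prob`. Let `s ≠ 0`. `U = {θ | 0 < Re θ, 0 < Re θ²} =
{|Im θ| < Re θ}` is open and convex. `z ↦ ∫ exp(-z² s²/(2w)) dsm(w)` is differentiable on `U`
(`hasDerivAt_integral_of_dominated_loc_of_deriv_le`: the derivative `-(z s²/w) exp(-z² s²/(2w))` is bounded by
`‖z‖ (s²/w) e^{-c s²/(2w)} ≤ 2‖z‖/c` when `Re z² ≥ c`), so is `z ↦ exp(-z |s|)`; they agree for `z > 0` real (`sub_real` with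
`c = z |s|`, `integral_ofReal`), hence on `U` (`AnalyticOnNhd.eqOn_of_preconnected_of_frequently_eq`).
-/

set_option autoImplicit false

open MeasureTheory Set Pool.Agent.MO
open scoped ENNReal NNReal

namespace Pool.Agent.MOZ

private lemma sq_re_eq (z : ℂ) : (z ^ 2).re = z.re ^ 2 - z.im ^ 2 := by
  rw [pow_two, Complex.mul_re]; ring

private def UU : Set ℂ := {z : ℂ | 0 < z.re ∧ 0 < (z ^ 2).re}

private lemma UU_eq : UU = {z : ℂ | 0 < z.re - z.im} ∩ {z : ℂ | 0 < z.re + z.im} := by
  ext z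
  simp only [UU, Set.mem_setOf_eq, Set.mem_inter_iff]
  rw [sq_re_eq]
  constructor
  · rintro ⟨h1, h2⟩
    have h3 : |z.im| < z.re := by
      apply abs_lt_of_sq_lt_sq _ h1.le
      linarith
    rw [abs_lt] at h3
    exact ⟨by linarith [h3.2], by linarith [h3.1]⟩
  · rintro ⟨h1, h2⟩
    refine ⟨by linarith, ?_⟩
    have := mul_pos h1 h2
    nlinarith [this]

private lemma UU_convex : Convex ℝ UU := by
  rw [UU_eq]
  apply Convex.inter
  · exact convex_halfSpace_gt (f := fun z : ℂ => z.re - z.im)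
      (IsLinearMap.mk (fun x y => by simp only [Complex.add_re, Complex.add_im]; ring)
        (fun c x => by simp only [Complex.smul_re, Complex.smul_im, smul_eq_mul]; ring)) 0
  · exact convex_halfSpace_gt (f := fun z : ℂ => z.re + z.im)
      (IsLinearMap.mk (fun x y => by simp only [Complex.add_re, Complex.add_im]; ring)
        (fun c x => by simp only [Complex.smul_re, Complex.smul_im, smul_eq_mul]; ring)) 0

private lemma UU_open : IsOpen UU := by
  rw [UU_eq]
  apply IsOpen.inter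
  · exact isOpen_lt continuous_const (Complex.continuous_re.sub Complex.continuous_im)
  · exact isOpen_lt continuous_const (Complex.continuous_re.add Complex.continuous_im)

private lemma cexp_norm (z : ℂ) (s w : ℝ) :
    ‖Complex.exp (-(z ^ 2 * (s : ℂ) ^ 2 / (2 * (w : ℂ))))‖ =
      Real.exp (-((z ^ 2).re * s ^ 2 / (2 * w))) := by
  rw [Complex.norm_exp]
  congr 1
  have : -(z ^ 2 * (s : ℂ) ^ 2 / (2 * (w : ℂ))) = z ^ 2 * ((-(s ^ 2 / (2 * w)) : ℝ) : ℂ) := by
    push_cast
    ring
  rw [this, Complex.re_mul_ofReal]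
  ring

private lemma meas_F (z : ℂ) (s : ℝ) :
    Measurable (fun w : ℝ => Complex.exp (-(z ^ 2 * (s : ℂ) ^ 2 / (2 * (w : ℂ))))) := by
  apply Complex.measurable_exp.comp
  apply Measurable.neg
  apply Measurable.div measurable_const
  exact measurable_const.mul Complex.measurable_ofReal

private lemma diff_F {s : ℝ} (hs : s ≠ 0) :
    DifferentiableOn ℂ
      (fun z : ℂ => ∫ w, Complex.exp (-(z ^ 2 * (s : ℂ) ^ 2 / (2 * (w : ℂ)))) ∂sm) UU := by
  haveI := sm_prob
  intro z₀ hz₀
  obtain ⟨_, hc0⟩ := hz₀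
  set c : ℝ := (z₀ ^ 2).re / 2 with hc
  have hcpos : 0 < c := by rw [hc]; exact half_pos hc0
  set R : ℝ := ‖z₀‖ + 1 with hR
  have hRpos : 0 < R := by rw [hR]; linarith [norm_nonneg z₀]
  have hN : {z : ℂ | c < (z ^ 2).re ∧ ‖z‖ < R} ∈ nhds z₀ := by
    apply IsOpen.mem_nhds
    · exact (isOpen_lt continuous_const (Complex.continuous_re.comp (continuous_pow 2))).inter
        (isOpen_lt continuous_norm continuous_const)
    · exact ⟨by rw [hc]; linarith, by rw [hR]; linarith⟩
  have hs2 : 0 < s ^ 2 := by positivity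
  have hmain := hasDerivAt_integral_of_dominated_loc_of_deriv_le (μ := sm) (𝕜 := ℂ)
    (F := fun (z : ℂ) (w : ℝ) => Complex.exp (-(z ^ 2 * (s : ℂ) ^ 2 / (2 * (w : ℂ)))))
    (F' := fun (z : ℂ) (w : ℝ) =>
      Complex.exp (-(z ^ 2 * (s : ℂ) ^ 2 / (2 * (w : ℂ)))) * (-(z * (s : ℂ) ^ 2 / (w : ℂ))))
    (x₀ := z₀) (bound := fun _ => R * (2 / c)) hN
    (Filter.Eventually.of_forall fun z => (meas_F z s).aestronglyMeasurable)
    (by
      apply (integrable_const (1 : ℝ)).mono' (meas_F z₀ s).aestronglyMeasurable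
      filter_upwards [sm_pos] with w hw
      rw [cexp_norm]
      apply Real.exp_le_one_iff.mpr
      rw [neg_nonpos]
      positivity)
    (by
      apply Measurable.aestronglyMeasurable
      apply (meas_F z₀ s).mul
      apply Measurable.neg
      exact measurable_const.div Complex.measurable_ofReal)
    (by
      filter_upwards [sm_pos] with w hw
      intro z hz
      obtain ⟨hz1, hz2⟩ := hz
      rw [norm_mul, cexp_norm, norm_neg, norm_div, norm_mul, norm_pow, Complex.norm_real,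
        Complex.norm_real, Real.norm_of_nonneg hw.le, Real.norm_eq_abs, sq_abs]
      have hu : 0 < c * s ^ 2 / (2 * w) := by positivity
      have e1 : Real.exp (-((z ^ 2).re * s ^ 2 / (2 * w))) ≤ Real.exp (-(c * s ^ 2 / (2 * w))) := by
        apply Real.exp_le_exp.mpr
        apply neg_le_neg
        apply div_le_div_of_nonneg_right _ (by positivity)
        exact mul_le_mul_of_nonneg_right hz1.le hs2.le
      have e2 : Real.exp (-(c * s ^ 2 / (2 * w))) * (c * s ^ 2 / (2 * w)) ≤ 1 := by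
        have h3 : c * s ^ 2 / (2 * w) ≤ Real.exp (c * s ^ 2 / (2 * w)) := by
          have := Real.add_one_le_exp (c * s ^ 2 / (2 * w))
          linarith
        rw [Real.exp_neg, inv_mul_le_iff₀ (Real.exp_pos _), mul_one]
        exact h3
      have e3 : 0 ≤ ‖z‖ * s ^ 2 / w := by positivity
      calc Real.exp (-((z ^ 2).re * s ^ 2 / (2 * w))) * (‖z‖ * s ^ 2 / w)
          ≤ Real.exp (-(c * s ^ 2 / (2 * w))) * (‖z‖ * s ^ 2 / w) :=
            mul_le_mul_of_nonneg_right e1 e3
        _ ≤ Real.exp (-(c * s ^ 2 / (2 * w))) * (R * s ^ 2 / w) := by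
            apply mul_le_mul_of_nonneg_left _ (Real.exp_pos _).le
            apply div_le_div_of_nonneg_right _ hw.le
            exact mul_le_mul_of_nonneg_right hz2.le hs2.le
        _ = (R * (2 / c)) * (Real.exp (-(c * s ^ 2 / (2 * w))) * (c * s ^ 2 / (2 * w))) := by
            field_simp
        _ ≤ (R * (2 / c)) * 1 := mul_le_mul_of_nonneg_left e2 (by positivity)
        _ = R * (2 / c) := mul_one _)
    (integrable_const _)
    (by
      filter_upwards [sm_pos] with w hw
      intro z _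
      have hw0 : (w : ℂ) ≠ 0 := by exact_mod_cast hw.ne'
      have h1 : HasDerivAt (fun z : ℂ => -(z ^ 2 * (s : ℂ) ^ 2 / (2 * (w : ℂ))))
          (-(z * (s : ℂ) ^ 2 / (w : ℂ))) z := by
        have h2 := (((hasDerivAt_pow 2 z).mul_const ((s : ℂ) ^ 2)).div_const (2 * (w : ℂ))).neg
        have e : -(((2 : ℕ) : ℂ) * z ^ (2 - 1) * (s : ℂ) ^ 2 / (2 * (w : ℂ))) =
            -(z * (s : ℂ) ^ 2 / (w : ℂ)) := by
          rw [show (2 - 1 : ℕ) = 1 from rfl, pow_one]
          push_cast
          field_simp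
        rw [e] at h2
        exact h2
      exact h1.cexp)
  exact hmain.2.differentiableAt.differentiableWithinAt

private lemma agree {s x : ℝ} (hx : 0 < x) :
    ∫ w, Complex.exp (-((x : ℂ) ^ 2 * (s : ℂ) ^ 2 / (2 * (w : ℂ)))) ∂sm =
      Complex.exp (-((x : ℂ) * |s|)) := by
  have h := sub_real (c := x * |s|) (by positivity)
  have e : (fun w : ℝ => Complex.exp (-((x : ℂ) ^ 2 * (s : ℂ) ^ 2 / (2 * (w : ℂ))))) =
      fun w : ℝ => ((Real.exp (-((x * |s|) ^ 2 / (2 * w))) : ℝ) : ℂ) := by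
    funext w
    rw [mul_pow, sq_abs]
    push_cast
    rfl
  rw [e, integral_complex_ofReal, h]
  push_cast
  rfl

theorem sub_cplx {θ : ℂ} (h1 : 0 < θ.re) (h2 : 0 < (θ ^ 2).re) (s : ℝ) :
    ∫ w, Complex.exp (-(θ ^ 2 * (s : ℂ) ^ 2 / (2 * (w : ℂ)))) ∂sm = Complex.exp (-(θ * |s|)) := by
  haveI := sm_prob
  by_cases hs : s = 0
  · subst hs
    simp
  · have hF : AnalyticOnNhd ℂ
        (fun z : ℂ => ∫ w, Complex.exp (-(z ^ 2 * (s : ℂ) ^ 2 / (2 * (w : ℂ)))) ∂sm) UU :=
      (diff_F hs).analyticOnNhd UU_open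
    have hG : AnalyticOnNhd ℂ (fun z : ℂ => Complex.exp (-(z * |s|))) UU := by
      apply DifferentiableOn.analyticOnNhd _ UU_open
      apply Differentiable.differentiableOn
      exact (((differentiable_id).mul_const _).neg).cexp
    have hfr : ∃ᶠ z in nhdsWithin (1 : ℂ) {(1 : ℂ)}ᶜ,
        (fun z : ℂ => ∫ w, Complex.exp (-(z ^ 2 * (s : ℂ) ^ 2 / (2 * (w : ℂ)))) ∂sm) z =
        (fun z : ℂ => Complex.exp (-(z * |s|))) z := by
      have ht : Filter.Tendsto (fun x : ℝ => (x : ℂ)) (nhdsWithin (1 : ℝ) {(1 : ℝ)}ᶜ)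
          (nhdsWithin (1 : ℂ) {(1 : ℂ)}ᶜ) := by
        apply tendsto_nhdsWithin_of_tendsto_nhds_of_eventually_within
        · have h := (Complex.continuous_ofReal.tendsto (1 : ℝ))
          rw [Complex.ofReal_one] at h
          exact h.mono_left nhdsWithin_le_nhds
        · filter_upwards [self_mem_nhdsWithin] with x hx
          intro h
          apply hx
          have h' : (x : ℂ) = 1 := h
          exact_mod_cast h'
      apply ht.frequently
      apply Filter.Eventually.frequently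
      have h0 : ∀ᶠ x in nhdsWithin (1 : ℝ) {(1 : ℝ)}ᶜ, 0 < x :=
        nhdsWithin_le_nhds (lt_mem_nhds zero_lt_one)
      filter_upwards [h0] with x hx
      exact agree hx
    have h1U : (1 : ℂ) ∈ UU := by
      refine ⟨?_, ?_⟩ <;> simp
    have := AnalyticOnNhd.eqOn_of_preconnected_of_frequently_eq hF hG
      UU_convex.isPreconnected h1U hfr
    exact this (show θ ∈ UU from ⟨h1, h2⟩)

end Pool.Agent.MOZ
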