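import Pool.Agent.MOZ.Defs

/-!
# MZ-SubR: the subordination identity, real case

Substitution `w = t²` (`integral_comp_rpow_Ioi`): the integral is `(2/√(2π)) F(c)`,
`F(c) = ∫_0^∞ exp(-(t²/2 + c²/(2t²))) dt = e^{-c} ∫_0^∞ h(t) dt`, `h(t) = exp(-(t - c/t)²/2)`, and
`2 ∫_0^∞ h = ∫_0^∞ (1 + c/t²) h(t) dt = ∫_ℝ e^{-y²/2} dy = √(2π)` (Cauchy-Schloemilch).
-/

set_option autoImplicit false

open MeasureTheory Set Pool.Agent.MO
open scoped ENNReal NNReal

namespace Pool.Agent.MOZ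

private theorem sr_meas : Measurable sd := by
  unfold sd
  fun_prop

private theorem sr_nonneg (w : ℝ) : 0 ≤ sd w :=
  mul_nonneg (inv_nonneg.mpr (Real.sqrt_nonneg _)) (Real.exp_pos _).le

/-- substitution `w = t²` -/
private theorem sr_subst (c : ℝ) :
    ∫ w in Ioi (0 : ℝ), sd w * Real.exp (-(c ^ 2 / (2 * w))) =
      (2 / Real.sqrt (2 * Real.pi)) *
        ∫ t in Ioi (0 : ℝ), Real.exp (-(t ^ 2 / 2 + c ^ 2 / (2 * t ^ 2))) := by
  rw [← integral_comp_rpow_Ioi (fun w => sd w * Real.exp (-(c ^ 2 / (2 * w))))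
    (two_ne_zero (α := ℝ)), ← integral_const_mul]
  refine setIntegral_congr_fun measurableSet_Ioi fun t ht => ?_
  have ht0 : (0 : ℝ) < t := ht
  have h1 : t ^ (2 : ℝ) = t ^ 2 := Real.rpow_two t
  have h2 : t ^ ((2 : ℝ) - 1) = t := by
    rw [show (2 : ℝ) - 1 = 1 by norm_num, Real.rpow_one]
  have h3 : |(2 : ℝ)| = 2 := abs_of_pos two_pos
  have h4 : Real.sqrt (2 * Real.pi * t ^ 2) = Real.sqrt (2 * Real.pi) * t := by
    rw [Real.sqrt_mul (by positivity), Real.sqrt_sq ht0.le]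
  have h5 : 0 < Real.sqrt (2 * Real.pi) := Real.sqrt_pos.mpr (by positivity)
  simp only [smul_eq_mul]
  rw [h1, h2, h3]
  unfold sd
  rw [h4]
  have h6 : Real.exp (-(t ^ 2 / 2 + c ^ 2 / (2 * t ^ 2))) =
      Real.exp (-(t ^ 2 / 2)) * Real.exp (-(c ^ 2 / (2 * t ^ 2))) := by
    rw [← Real.exp_add]
    congr 1
    ring
  rw [h6]
  field_simp

/-- `√(2π)` as a Gaussian integral on the half line -/
private theorem sr_gauss : ∫ t in Ioi (0 : ℝ), Real.exp (-(t ^ 2 / 2)) =
    Real.sqrt (2 * Real.pi) / 2 := by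
  have h := integral_gaussian_Ioi (1 / 2)
  have h1 : ∀ x : ℝ, Real.exp (-(1 / 2) * x ^ 2) = Real.exp (-(x ^ 2 / 2)) := by
    intro x
    congr 1
    ring
  simp only [h1] at h
  rw [h]
  congr 2
  ring

private theorem sr_gauss' : ∫ t : ℝ, Real.exp (-(t ^ 2 / 2)) = Real.sqrt (2 * Real.pi) := by
  have h := integral_gaussian (1 / 2)
  have h1 : ∀ x : ℝ, Real.exp (-(1 / 2) * x ^ 2) = Real.exp (-(x ^ 2 / 2)) := by
    intro x
    congr 1
    ring
  simp only [h1] at h
  rw [h]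
  congr 1
  ring

private theorem sr_int : Integrable (fun t : ℝ => Real.exp (-(t ^ 2 / 2))) := by
  have h := integrable_exp_neg_mul_sq (b := 1 / 2) (by norm_num)
  refine h.congr (Filter.Eventually.of_forall fun x => ?_)
  show Real.exp (-(1 / 2) * x ^ 2) = Real.exp (-(x ^ 2 / 2))
  congr 1
  ring

/-- `h(t) = exp(-(t - c/t)²/2)` -/
private noncomputable def hh (c t : ℝ) : ℝ := Real.exp (-((t - c / t) ^ 2 / 2))

private theorem hh_meas (c : ℝ) : Measurable (hh c) := by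
  unfold hh
  fun_prop

private theorem hh_int {c : ℝ} (_hc : 0 < c) : IntegrableOn (hh c) (Ioi 0) := by
  have h1 : IntegrableOn (fun t : ℝ => Real.exp c * Real.exp (-(t ^ 2 / 2))) (Ioi 0) :=
    (sr_int.const_mul _).integrableOn
  refine Integrable.mono' h1 (hh_meas c).aestronglyMeasurable ?_
  refine (ae_restrict_mem measurableSet_Ioi).mono fun t ht => ?_
  have ht0 : (0 : ℝ) < t := ht
  rw [Real.norm_eq_abs, hh, abs_of_pos (Real.exp_pos _), ← Real.exp_add]
  apply Real.exp_le_exp.mpr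
  have h2 : (t - c / t) ^ 2 = t ^ 2 - 2 * c + (c / t) ^ 2 := by
    field_simp
    ring
  rw [h2]
  nlinarith [sq_nonneg (c / t)]

private theorem cs_image {c : ℝ} (hc : 0 < c) : (fun t : ℝ => t - c / t) '' Ioi 0 = univ := by
  ext y
  simp only [mem_image, mem_univ, iff_true]
  have h1 : 0 < y ^ 2 + 4 * c := by positivity
  have h2 : |y| < Real.sqrt (y ^ 2 + 4 * c) := by
    rw [← Real.sqrt_sq_eq_abs]
    exact Real.sqrt_lt_sqrt (sq_nonneg y) (by linarith)
  have h3 : 0 < (y + Real.sqrt (y ^ 2 + 4 * c)) / 2 := by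
    have := neg_abs_le y
    linarith
  refine ⟨(y + Real.sqrt (y ^ 2 + 4 * c)) / 2, h3, ?_⟩
  have h4 : Real.sqrt (y ^ 2 + 4 * c) ^ 2 = y ^ 2 + 4 * c := Real.sq_sqrt h1.le
  have h5 : y + Real.sqrt (y ^ 2 + 4 * c) ≠ 0 := by
    intro h; rw [h] at h3; norm_num at h3
  field_simp
  nlinarith

private theorem cs_deriv (c : ℝ) (x : ℝ) (hx : x ∈ Ioi (0 : ℝ)) :
    HasDerivWithinAt (fun t : ℝ => t - c / t) (1 + c / x ^ 2) (Ioi 0) x := by
  have hx0 : x ≠ 0 := ne_of_gt hx
  have h1 : HasDerivAt (fun t : ℝ => c / t) (-(c / x ^ 2)) x := by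
    have h := (hasDerivAt_inv hx0).const_mul c
    have h2 : (fun t : ℝ => c / t) = fun t => c * t⁻¹ := by
      funext t
      rw [div_eq_mul_inv]
    rw [h2]
    have h3 : -(c / x ^ 2) = c * -(x ^ 2)⁻¹ := by
      rw [div_eq_mul_inv]; ring
    rw [h3]
    exact h
  have h4 := ((hasDerivAt_id x).sub h1).hasDerivWithinAt (s := Ioi 0)
  have h5 : (1 : ℝ) + c / x ^ 2 = 1 - -(c / x ^ 2) := by ring
  rw [h5]
  exact h4

private theorem cs_inj {c : ℝ} (hc : 0 < c) : InjOn (fun t : ℝ => t - c / t) (Ioi 0) := by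
  intro x hx y hy hxy
  have hx0 : (0 : ℝ) < x := hx
  have hy0 : (0 : ℝ) < y := hy
  simp only at hxy
  have h1 : (x - y) * (1 + c / (x * y)) = 0 := by
    have h2 : (x - y) * (1 + c / (x * y)) = (x - c / x) - (y - c / y) := by
      field_simp
      ring
    rw [h2, hxy, sub_self]
  have h3 : (1 + c / (x * y)) ≠ 0 := by positivity
  rcases mul_eq_zero.mp h1 with h | h
  · linarith
  · exact absurd h h3

private theorem iv_image {c : ℝ} (hc : 0 < c) : (fun t : ℝ => c / t) '' Ioi 0 = Ioi 0 := by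
  ext y
  simp only [mem_image, mem_Ioi]
  constructor
  · rintro ⟨t, ht, rfl⟩
    exact div_pos hc ht
  · intro hy
    refine ⟨c / y, div_pos hc hy, ?_⟩
    field_simp

private theorem iv_deriv (c : ℝ) (x : ℝ) (hx : x ∈ Ioi (0 : ℝ)) :
    HasDerivWithinAt (fun t : ℝ => c / t) (-(c / x ^ 2)) (Ioi 0) x := by
  have hx0 : x ≠ 0 := ne_of_gt hx
  have h := ((hasDerivAt_inv hx0).const_mul c).hasDerivWithinAt (s := Ioi 0)
  have h2 : (fun t : ℝ => c / t) = fun t => c * t⁻¹ := by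
    funext t
    rw [div_eq_mul_inv]
  rw [h2]
  have h3 : -(c / x ^ 2) = c * -(x ^ 2)⁻¹ := by
    rw [div_eq_mul_inv]; ring
  rw [h3]
  exact h

private theorem iv_inj {c : ℝ} (hc : 0 < c) : InjOn (fun t : ℝ => c / t) (Ioi 0) := by
  intro x hx y hy hxy
  have hx0 : (0 : ℝ) < x := hx
  have hy0 : (0 : ℝ) < y := hy
  simp only at hxy
  rw [div_eq_div_iff hx0.ne' hy0.ne'] at hxy
  exact (mul_left_cancel₀ hc.ne' hxy).symm

private theorem hh_integral {c : ℝ} (hc : 0 < c) :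
    ∫ t in Ioi (0 : ℝ), hh c t = Real.sqrt (2 * Real.pi) / 2 := by
  -- first substitution
  have h1 := integral_image_eq_integral_abs_deriv_smul (s := Ioi (0 : ℝ)) measurableSet_Ioi
    (cs_deriv c) (cs_inj hc) (fun y => Real.exp (-(y ^ 2 / 2)))
  rw [cs_image hc, Measure.restrict_univ, sr_gauss'] at h1
  have h1i := (integrableOn_image_iff_integrableOn_abs_deriv_smul (s := Ioi (0 : ℝ))
    measurableSet_Ioi (cs_deriv c) (cs_inj hc) (fun y => Real.exp (-(y ^ 2 / 2)))).mp (by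
      rw [cs_image hc]
      exact sr_int.integrableOn)
  have h2 : ∀ t ∈ Ioi (0 : ℝ), |1 + c / t ^ 2| • Real.exp (-((t - c / t) ^ 2 / 2)) =
      hh c t + c / t ^ 2 * hh c t := by
    intro t ht
    have ht0 : (0 : ℝ) < t := ht
    have h3 : 0 < 1 + c / t ^ 2 := by positivity
    rw [abs_of_pos h3, smul_eq_mul, hh]
    ring
  rw [setIntegral_congr_fun measurableSet_Ioi h2] at h1
  have h1i' : IntegrableOn (fun t => hh c t + c / t ^ 2 * hh c t) (Ioi 0) :=
    h1i.congr_fun h2 measurableSet_Ioi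
  have h4 : IntegrableOn (fun t => c / t ^ 2 * hh c t) (Ioi 0) := by
    have h5 := h1i'.sub (hh_int hc)
    refine h5.congr_fun ?_ measurableSet_Ioi
    intro t _
    simp only [Pi.sub_apply]
    ring
  rw [integral_add (hh_int hc) h4] at h1
  -- second substitution
  have h6 := integral_image_eq_integral_abs_deriv_smul (s := Ioi (0 : ℝ)) measurableSet_Ioi
    (iv_deriv c) (iv_inj hc) (hh c)
  rw [iv_image hc] at h6
  have h7 : ∀ t ∈ Ioi (0 : ℝ), |(-(c / t ^ 2))| • hh c (c / t) = c / t ^ 2 * hh c t := by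
    intro t ht
    have ht0 : (0 : ℝ) < t := ht
    have h8 : 0 < c / t ^ 2 := by positivity
    rw [abs_neg, abs_of_pos h8, smul_eq_mul]
    congr 1
    unfold hh
    congr 2
    have h9 : c / (c / t) = t := by field_simp
    rw [h9]
    ring
  rw [setIntegral_congr_fun measurableSet_Ioi h7] at h6
  rw [← h6] at h1
  linarith

private theorem sr_F {c : ℝ} (hc : 0 < c) :
    ∫ t in Ioi (0 : ℝ), Real.exp (-(t ^ 2 / 2 + c ^ 2 / (2 * t ^ 2))) =
      Real.exp (-c) * (Real.sqrt (2 * Real.pi) / 2) := by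
  rw [← hh_integral hc, ← integral_const_mul]
  refine setIntegral_congr_fun measurableSet_Ioi fun t ht => ?_
  have ht0 : (0 : ℝ) < t := ht
  simp only [hh]
  rw [← Real.exp_add]
  congr 1
  field_simp
  ring

private theorem sr_total : ∫ w in Ioi (0 : ℝ), sd w = 1 := by
  have h := sr_subst 0
  have h1 : ∀ w : ℝ, sd w * Real.exp (-((0 : ℝ) ^ 2 / (2 * w))) = sd w := by
    intro w
    simp
  have h2 : ∀ t : ℝ, Real.exp (-(t ^ 2 / 2 + (0 : ℝ) ^ 2 / (2 * t ^ 2))) =
      Real.exp (-(t ^ 2 / 2)) := by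
    intro t
    simp
  simp only [h1, h2] at h
  rw [h, sr_gauss]
  have h5 : 0 < Real.sqrt (2 * Real.pi) := Real.sqrt_pos.mpr (by positivity)
  field_simp

theorem sm_prob : IsProbabilityMeasure sm := by
  have hint : Integrable sd (volume.restrict (Ioi (0 : ℝ))) := by
    by_contra h
    have h1 := integral_undef h
    rw [sr_total] at h1
    exact one_ne_zero h1
  constructor
  unfold sm
  rw [withDensity_apply _ MeasurableSet.univ, Measure.restrict_univ,
    ← ofReal_integral_eq_lintegral_ofReal hint (Filter.Eventually.of_forall sr_nonneg),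
    sr_total, ENNReal.ofReal_one]

theorem sm_pos : ∀ᵐ w ∂sm, 0 < w :=
  (withDensity_absolutelyContinuous _ _).ae_le
    ((ae_restrict_mem measurableSet_Ioi).mono fun _ hw => hw)

theorem sub_real {c : ℝ} (hc : 0 ≤ c) : ∫ w, Real.exp (-(c ^ 2 / (2 * w))) ∂sm = Real.exp (-c) := by
  unfold sm
  rw [integral_withDensity_eq_integral_toReal_smul (sr_meas.ennreal_ofReal)
    (Filter.Eventually.of_forall fun _ => ENNReal.ofReal_lt_top)]
  have h1 : ∀ w : ℝ, (ENNReal.ofReal (sd w)).toReal • Real.exp (-(c ^ 2 / (2 * w))) =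
      sd w * Real.exp (-(c ^ 2 / (2 * w))) := by
    intro w
    rw [ENNReal.toReal_ofReal (sr_nonneg w), smul_eq_mul]
  simp only [h1]
  rcases hc.eq_or_lt with rfl | hc0
  · have h2 : ∀ w : ℝ, sd w * Real.exp (-((0 : ℝ) ^ 2 / (2 * w))) = sd w := by
      intro w
      simp
    simp only [h2]
    rw [sr_total]
    simp
  · rw [sr_subst c, sr_F hc0]
    have h5 : 0 < Real.sqrt (2 * Real.pi) := Real.sqrt_pos.mpr (by positivity)
    field_simp

end Pool.Agent.MOZ
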