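import Pool.Agent.MOZ.SubC
import Pool.Agent.MOZ.Mix
import Pool.Agent.MOZ.Form
import Pool.Agent.MOZ.Hom

/-!
# MZ-ZKer: the Gibbs kernels are contractions

`Re θ² ≥ 3/4 > 0`, `Re θ > 0`. `ν = Measure.pi (fun _ : Fin M => sm)` (probability measure), a.e. all `w i > 0`. For all such `w`:
`exp(-θ² qf a (1/w) x / 2) = ∏ i, exp(-θ² ⟨a_i,x⟩²/(2 w_i))`, so by `integral_fintype_prod_eq_prod` and `sub_cplx`:
`∫ exp(-θ² qf a w⁻¹ x/2) dν(w) = ∏ exp(-θ |⟨a_i,x⟩|) = exp(-θ nf a x)` (`pi_sub`).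
`nb_mix` with `G w x = θ^n exp(-θ² qf a w⁻¹ x/2)` and `c w = ∫ exp(-qf a w⁻¹ x/2) dx` (positive: `form_int`), `form` for a.e. `w`.
`∫ c dν = ∫ exp(-nf a x) dx` by Tonelli and the real case of `pi_sub` (`θ = 1`); integrability of `c` and of `G` on the
product: `‖G w x‖ ≤ ‖θ‖^n exp(-Re θ² qf/2)`, whose `ν`-integral is `‖θ‖^n exp(-√(Re θ²) nf a x)` (`hom_int`) (`integrable_prod_iff`).
-/

set_option autoImplicit false

open MeasureTheory Set Pool.Agent.MO
open scoped ENNReal NNReal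

namespace Pool.Agent.MOZ

theorem pi_sub {n M : ℕ} (a : Fin M → Fin n → ℝ) {θ : ℂ} (h1 : 0 < θ.re) (h2 : 0 < (θ ^ 2).re)
    (x : Fin n → ℝ) :
    ∫ w, Complex.exp (-(θ ^ 2 * (qf a (fun i => (w i)⁻¹) x : ℂ) / 2))
      ∂(Measure.pi fun _ : Fin M => sm) = Complex.exp (-(θ * (nf a x : ℂ))) := by
  haveI := sm_prob
  have h3 : ∀ w : Fin M → ℝ, Complex.exp (-(θ ^ 2 * (qf a (fun i => (w i)⁻¹) x : ℂ) / 2)) =
      ∏ i, Complex.exp (-(θ ^ 2 * ((∑ j, a i j * x j : ℝ) : ℂ) ^ 2 / (2 * ((w i : ℝ) : ℂ)))) := by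
    intro w
    rw [← Complex.exp_sum]
    congr 1
    unfold qf
    rw [Complex.ofReal_sum, Finset.mul_sum, Finset.sum_div, ← Finset.sum_neg_distrib]
    refine Finset.sum_congr rfl fun i _ => ?_
    rw [Complex.ofReal_mul, Complex.ofReal_pow, Complex.ofReal_inv]
    ring
  have h4 : ∫ w : Fin M → ℝ, ∏ i, Complex.exp (-(θ ^ 2 * ((∑ j, a i j * x j : ℝ) : ℂ) ^ 2 /
      (2 * ((w i : ℝ) : ℂ)))) ∂(Measure.pi fun _ : Fin M => sm) =
      ∏ i, ∫ u : ℝ, Complex.exp (-(θ ^ 2 * ((∑ j, a i j * x j : ℝ) : ℂ) ^ 2 /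
      (2 * (u : ℂ)))) ∂sm :=
    integral_fintype_prod_eq_prod (μ := fun _ : Fin M => sm) (fun (i : Fin M) (u : ℝ) =>
      Complex.exp (-(θ ^ 2 * ((∑ j, a i j * x j : ℝ) : ℂ) ^ 2 / (2 * (u : ℂ)))))
  rw [integral_congr_ae (Filter.Eventually.of_forall h3), h4]
  simp_rw [sub_cplx h1 h2]
  rw [← Complex.exp_sum]
  congr 1
  unfold nf
  rw [Complex.ofReal_sum, Finset.mul_sum, ← Finset.sum_neg_distrib]

private theorem zk_real {n M : ℕ} (a : Fin M → Fin n → ℝ) {κ : ℝ} (hκ : 0 < κ)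
    (x : Fin n → ℝ) :
    ∫ w, Real.exp (-(κ ^ 2 * qf a (fun i => (w i)⁻¹) x / 2))
      ∂(Measure.pi fun _ : Fin M => sm) = Real.exp (-(κ * nf a x)) := by
  have h := pi_sub a (θ := (κ : ℂ)) (by simpa using hκ)
    (by rw [← Complex.ofReal_pow, Complex.ofReal_re]; positivity) x
  have h2 : ∀ w : Fin M → ℝ, Complex.exp (-((κ : ℂ) ^ 2 * (qf a (fun i => (w i)⁻¹) x : ℂ) / 2)) =
      ((Real.exp (-(κ ^ 2 * qf a (fun i => (w i)⁻¹) x / 2)) : ℝ) : ℂ) := by
    intro w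
    push_cast
    rfl
  simp_rw [h2] at h
  rw [integral_complex_ofReal] at h
  have h3 : Complex.exp (-((κ : ℂ) * (nf a x : ℂ))) = ((Real.exp (-(κ * nf a x)) : ℝ) : ℂ) := by
    push_cast
    rfl
  rw [h3] at h
  exact_mod_cast h

private theorem zk_pos (M : ℕ) : ∀ᵐ w ∂(Measure.pi fun _ : Fin M => sm), ∀ i, 0 < w i := by
  haveI := sm_prob
  rw [ae_all_iff]
  intro i
  exact (Measure.tendsto_eval_ae_ae (μ := fun _ : Fin M => sm) (i := i)).eventually sm_pos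

private theorem zk_qf_meas {n M : ℕ} (a : Fin M → Fin n → ℝ) :
    Measurable fun q : (Fin M → ℝ) × (Fin n → ℝ) => qf a (fun i => (q.1 i)⁻¹) q.2 := by
  unfold qf
  refine Finset.measurable_sum _ fun i _ => ?_
  refine Measurable.mul ?_ ?_
  · exact ((measurable_pi_apply i).comp measurable_fst).inv
  · refine Measurable.pow_const (Finset.measurable_sum _ fun j _ => ?_) 2
    exact ((measurable_pi_apply j).comp measurable_snd).const_mul _

private theorem zk_qf_nonneg {n M : ℕ} (a : Fin M → Fin n → ℝ) {w : Fin M → ℝ}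
    (hw : ∀ i, 0 < w i) (x : Fin n → ℝ) : 0 ≤ qf a (fun i => (w i)⁻¹) x := by
  unfold qf
  exact Finset.sum_nonneg fun i _ => mul_nonneg (inv_nonneg.2 (hw i).le) (sq_nonneg _)

private theorem zk_int {n M : ℕ} {a : Fin M → Fin n → ℝ} (ha : Nd a) {κ : ℝ} (hκ : 0 < κ) :
    Integrable (fun q : (Fin M → ℝ) × (Fin n → ℝ) =>
      Real.exp (-(κ ^ 2 * qf a (fun i => (q.1 i)⁻¹) q.2 / 2)))
      ((Measure.pi fun _ : Fin M => sm).prod volume) := by
  haveI := sm_prob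
  have hm : Measurable fun q : (Fin M → ℝ) × (Fin n → ℝ) =>
      Real.exp (-(κ ^ 2 * qf a (fun i => (q.1 i)⁻¹) q.2 / 2)) :=
    Real.measurable_exp.comp ((((zk_qf_meas a).const_mul (κ ^ 2)).div_const 2).neg)
  rw [integrable_prod_iff' hm.aestronglyMeasurable]
  constructor
  · refine Filter.Eventually.of_forall fun x => ?_
    refine (integrable_const (1 : ℝ)).mono' ?_ ?_
    · exact (hm.comp (measurable_id.prodMk measurable_const)).aestronglyMeasurable
    · filter_upwards [zk_pos M] with w hw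
      rw [Real.norm_of_nonneg (Real.exp_pos _).le, Real.exp_le_one_iff]
      have h1 := zk_qf_nonneg a hw x
      have h2 : 0 ≤ κ ^ 2 * qf a (fun i => (w i)⁻¹) x / 2 := by positivity
      linarith
  · have h1 : (fun x : Fin n → ℝ => ∫ w, ‖Real.exp (-(κ ^ 2 *
        qf a (fun i => (w i)⁻¹) x / 2))‖ ∂(Measure.pi fun _ : Fin M => sm)) =
        fun x => Real.exp (-(κ * nf a x)) := by
      funext x
      rw [← zk_real a hκ x]
      refine integral_congr_ae (Filter.Eventually.of_forall fun w => ?_)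
      exact Real.norm_of_nonneg (Real.exp_pos _).le
    show Integrable (fun x : Fin n → ℝ => ∫ w, ‖Real.exp (-(κ ^ 2 *
        qf a (fun i => (w i)⁻¹) x / 2))‖ ∂(Measure.pi fun _ : Fin M => sm)) volume
    rw [h1]
    exact (hom_int ha hκ).1

theorem zker {n M : ℕ} {a : Fin M → Fin n → ℝ} (ha : Nd a) {p : ℝ} (hp : 1 < p) {θ : ℂ}
    (hθ : ‖θ - 1‖ ≤ 1 / 8) (h : NB p 1 (gc θ)) :
    NB p (∫ x, Real.exp (-nf a x)) fun x : Fin n → ℝ => θ ^ n * Complex.exp (-(θ * (nf a x : ℂ))) := by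
  haveI := sm_prob
  have hre : |θ.re - 1| ≤ 1 / 8 := by
    have h1 := Complex.abs_re_le_norm (θ - 1)
    rw [Complex.sub_re, Complex.one_re] at h1
    exact h1.trans hθ
  have him : |θ.im| ≤ 1 / 8 := by
    have h1 := Complex.abs_im_le_norm (θ - 1)
    rw [Complex.sub_im, Complex.one_im, sub_zero] at h1
    exact h1.trans hθ
  rw [abs_le] at hre him
  have h1 : 0 < θ.re := by linarith [hre.1]
  have h2 : 0 < (θ ^ 2).re := by
    have h3 : (θ ^ 2).re = θ.re ^ 2 - θ.im ^ 2 := by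
      rw [pow_two, Complex.mul_re]
      ring
    rw [h3]
    nlinarith [hre.1, hre.2, him.1, him.2]
  set κ := Real.sqrt (θ ^ 2).re with hκd
  have hκ : 0 < κ := Real.sqrt_pos.2 h2
  have hκ2 : κ ^ 2 = (θ ^ 2).re := Real.sq_sqrt h2.le
  let G : (Fin M → ℝ) → (Fin n → ℝ) → ℂ := fun w x =>
    θ ^ n * Complex.exp (-(θ ^ 2 * (qf a (fun i => (w i)⁻¹) x : ℂ) / 2))
  let c : (Fin M → ℝ) → ℝ := fun w => ∫ x : Fin n → ℝ, Real.exp (-(qf a (fun i => (w i)⁻¹) x / 2))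
  have hc1 : ∀ (w : Fin M → ℝ) (x : Fin n → ℝ), Real.exp (-(qf a (fun i => (w i)⁻¹) x / 2)) =
      Real.exp (-((1 : ℝ) ^ 2 * qf a (fun i => (w i)⁻¹) x / 2)) := by
    intro w x
    rw [one_pow, one_mul]
  have hI1 := zk_int ha (κ := 1) one_pos
  have hc : Integrable c (Measure.pi fun _ : Fin M => sm) := by
    have h3 := hI1.integral_prod_left
    refine h3.congr (Filter.Eventually.of_forall fun w => ?_)
    show ∫ x : Fin n → ℝ, Real.exp (-((1 : ℝ) ^ 2 * qf a (fun i => (w i)⁻¹) x / 2)) = c w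
    simp only [c, one_pow, one_mul]
  have hcv : ∫ w, c w ∂(Measure.pi fun _ : Fin M => sm) = ∫ x, Real.exp (-nf a x) := by
    have h3 := integral_integral_swap (f := fun (w : Fin M → ℝ) (x : Fin n → ℝ) =>
      Real.exp (-((1 : ℝ) ^ 2 * qf a (fun i => (w i)⁻¹) x / 2))) hI1
    have h4 : ∫ w, c w ∂(Measure.pi fun _ : Fin M => sm) =
        ∫ w, (∫ x : Fin n → ℝ, Real.exp (-((1 : ℝ) ^ 2 * qf a (fun i => (w i)⁻¹) x / 2)))
          ∂(Measure.pi fun _ : Fin M => sm) := by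
      simp only [c, one_pow, one_mul]
    rw [h4, h3]
    refine integral_congr_ae (Filter.Eventually.of_forall fun x => ?_)
    show ∫ w, Real.exp (-((1 : ℝ) ^ 2 * qf a (fun i => (w i)⁻¹) x / 2))
      ∂(Measure.pi fun _ : Fin M => sm) = Real.exp (-nf a x)
    rw [zk_real a one_pos, one_mul]
  have hGm : Measurable (Function.uncurry G) := by
    have h3 : Measurable fun q : (Fin M → ℝ) × (Fin n → ℝ) =>
        ((qf a (fun i => (q.1 i)⁻¹) q.2 : ℝ) : ℂ) := Complex.measurable_ofReal.comp (zk_qf_meas a)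
    have h4 : Measurable fun q : (Fin M → ℝ) × (Fin n → ℝ) =>
        θ ^ n * Complex.exp (-(θ ^ 2 * ((qf a (fun i => (q.1 i)⁻¹) q.2 : ℝ) : ℂ) / 2)) :=
      (Complex.measurable_exp.comp (((h3.const_mul (θ ^ 2)).div_const 2).neg)).const_mul _
    exact h4
  have hGi : Integrable (Function.uncurry G) ((Measure.pi fun _ : Fin M => sm).prod volume) := by
    refine ((zk_int ha hκ).const_mul (‖θ‖ ^ n)).mono' hGm.aestronglyMeasurable
      (Filter.Eventually.of_forall fun q => le_of_eq ?_)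
    show ‖θ ^ n * Complex.exp (-(θ ^ 2 * ((qf a (fun i => (q.1 i)⁻¹) q.2 : ℝ) : ℂ) / 2))‖ =
      ‖θ‖ ^ n * Real.exp (-(κ ^ 2 * qf a (fun i => (q.1 i)⁻¹) q.2 / 2))
    rw [norm_mul, norm_pow, Complex.norm_exp, hκ2]
    congr 2
    rw [Complex.neg_re]
    congr 1
    have h3 : θ ^ 2 * ((qf a (fun i => (q.1 i)⁻¹) q.2 : ℝ) : ℂ) / 2 =
        θ ^ 2 * ((qf a (fun i => (q.1 i)⁻¹) q.2 / 2 : ℝ) : ℂ) := by
      push_cast
      ring
    rw [h3, Complex.re_mul_ofReal]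
    ring
  have hmain := nb_mix (Measure.pi fun _ : Fin M => sm) hp hc (by
      filter_upwards [zk_pos M] with w hw
      have h3 := (form_int ha (v := fun i => (w i)⁻¹) (fun i => inv_pos.2 (hw i))
        (c := 1 / 2) (by norm_num)).2
      have h4 : c w = ∫ x : Fin n → ℝ, Real.exp (-(1 / 2 * qf a (fun i => (w i)⁻¹) x)) := by
        simp only [c]
        refine integral_congr_ae (Filter.Eventually.of_forall fun x => ?_)
        show Real.exp (-(qf a (fun i => (w i)⁻¹) x / 2)) =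
          Real.exp (-(1 / 2 * qf a (fun i => (w i)⁻¹) x))
        congr 1
        ring
      rw [h4]
      exact h3) hGm hGi (by
      filter_upwards [zk_pos M] with w hw
      exact form ha (v := fun i => (w i)⁻¹) (fun i => inv_pos.2 (hw i)) hp.le h2 h)
  rw [hcv] at hmain
  have hGx : (fun x : Fin n → ℝ => ∫ w, G w x ∂(Measure.pi fun _ : Fin M => sm)) =
      fun x => θ ^ n * Complex.exp (-(θ * (nf a x : ℂ))) := by
    funext x
    simp only [G]
    rw [integral_const_mul, pi_sub a h1 h2 x]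
  rw [hGx] at hmain
  exact hmain

end Pool.Agent.MOZ
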