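import Pool.Agent.MOZ.ZKer
import Pool.Agent.MOZ.Gc
import Pool.Agent.MO.Schw
import Pool.Agent.MO.ProdL

/-!
# MZ-ZLip: Lipschitz estimate in the dilation parameter

`r0` from `g1`, `r = r0/4`. `|τ| ≤ r`, `θ0 = 1 + iτ`, `Z = ∫ exp(-nf a x)`. For `‖z‖ ≤ r`: `θ = θ0 (1 - z)` satisfies
`‖θ - 1‖ ≤ |τ| + ‖θ0‖ ‖z‖ ≤ r + 2r ≤ r0`; `G z x = Z⁻¹ θ^n exp(-θ nf a x)`, `NB p 1 (G z)` by `zker` and `nb_smul`. `schw` with the
real parameter `ε' = ε/(1+ε) < r`: `NB p (2ε'/r) (G ε' - G 0)`. `G ε' x = Z⁻¹ θ0^n (1+ε)^(-n) exp(-θ0 nf a x/(1+ε)) =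
Z⁻¹ θ0^n dk (1+ε) (exp(-θ0 nf a)) x` (`nf_smul`), multiply by `Z θ0^(-n)` (`nb_smul`), `ε' ≤ ε` (`nb_mono`).
Hypothesis `hd` of `schw`: `∫ op (G z) f x g x dx = ∫ G z y φ y dy`, `φ y = ∫ f(x+y) g x dx` continuous, bounded (Fubini), and
`z ↦ ∫ G z y φ y dy` is differentiable: derivative of `G z y` in `z` bounded by `C (1 + nf a y) exp(-nf a y/2)`
(`hasDerivAt_integral_of_dominated_loc_of_deriv_le`).
-/

set_option autoImplicit false

open MeasureTheory Set Pool.Agent.MO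
open scoped ENNReal NNReal

namespace Pool.Agent.MOZ

private theorem th_bd {r0 τ : ℝ} {z : ℂ} (hr : r0 ≤ 1 / 8) (hτ : |τ| ≤ r0 / 4)
    (hz : ‖z‖ ≤ r0 / 4) : ‖(1 + τ * Complex.I) * (1 - z) - 1‖ ≤ r0 := by
  have h1 : ‖(τ : ℂ) * Complex.I‖ = |τ| := by
    rw [norm_mul, Complex.norm_I, mul_one, Complex.norm_real, Real.norm_eq_abs]
  have h2 : ‖1 + (τ : ℂ) * Complex.I‖ ≤ 2 := by
    refine (norm_add_le _ _).trans ?_
    rw [h1, norm_one]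
    linarith
  have e : (1 + (τ : ℂ) * Complex.I) * (1 - z) - 1 =
      (τ : ℂ) * Complex.I - (1 + (τ : ℂ) * Complex.I) * z := by ring
  rw [e]
  refine (norm_sub_le _ _).trans ?_
  rw [h1, norm_mul]
  have h3 : ‖1 + (τ : ℂ) * Complex.I‖ * ‖z‖ ≤ 2 * (r0 / 4) :=
    mul_le_mul h2 hz (norm_nonneg _) (by norm_num)
  have h4 := abs_nonneg τ
  linarith

private theorem re_ge {θ : ℂ} (h : ‖θ - 1‖ ≤ 1 / 8) : 7 / 8 ≤ θ.re := by
  have h1 := (Complex.abs_re_le_norm (θ - 1)).trans h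
  rw [Complex.sub_re, Complex.one_re] at h1
  have := (abs_le.1 h1).1
  linarith

private theorem nrm_le {θ : ℂ} (h : ‖θ - 1‖ ≤ 1 / 8) : ‖θ‖ ≤ 2 := by
  have h1 : θ = (θ - 1) + 1 := by ring
  rw [h1]
  refine (norm_add_le _ _).trans ?_
  rw [norm_one]
  linarith

private theorem nexp {θ : ℂ} (h : ‖θ - 1‖ ≤ 1 / 8) {N : ℝ} (hN : 0 ≤ N) :
    ‖Complex.exp (-(θ * (N : ℂ)))‖ ≤ Real.exp (-(7 / 8 * N)) := by
  rw [Complex.norm_exp]
  refine Real.exp_le_exp.2 ?_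
  have : (-(θ * (N : ℂ))).re = -(θ.re * N) := by
    simp [Complex.mul_re]
  rw [this]
  have := mul_le_mul_of_nonneg_right (re_ge h) hN
  linarith

private theorem mul_exp_le {N : ℝ} (hN : 0 ≤ N) :
    N * Real.exp (-(7 / 8 * N)) ≤ 3 * Real.exp (-(1 / 2 * N)) := by
  have h1 : 3 / 8 * N + 1 ≤ Real.exp (3 / 8 * N) := Real.add_one_le_exp _
  have h2 : N ≤ 3 * Real.exp (3 / 8 * N) := by linarith
  calc N * Real.exp (-(7 / 8 * N)) ≤ 3 * Real.exp (3 / 8 * N) * Real.exp (-(7 / 8 * N)) :=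
        mul_le_mul_of_nonneg_right h2 (Real.exp_pos _).le
    _ = 3 * Real.exp (-(1 / 2 * N)) := by
        rw [mul_assoc, ← Real.exp_add]
        congr 2
        ring

private theorem nf_nonneg {n M : ℕ} (a : Fin M → Fin n → ℝ) (x : Fin n → ℝ) : 0 ≤ nf a x :=
  Finset.sum_nonneg fun _ _ => abs_nonneg _

/-- the analytic family -/
private noncomputable def kg {n M : ℕ} (a : Fin M → Fin n → ℝ) (κ θ0 z : ℂ) (x : Fin n → ℝ) : ℂ :=
  κ * ((θ0 * (1 - z)) ^ n * Complex.exp (-((θ0 * (1 - z)) * (nf a x : ℂ))))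

/-- its derivative -/
private noncomputable def kd {n M : ℕ} (a : Fin M → Fin n → ℝ) (κ θ0 z : ℂ) (x : Fin n → ℝ) : ℂ :=
  κ * ((n * (θ0 * (1 - z)) ^ (n - 1) * (-θ0)) * Complex.exp (-((θ0 * (1 - z)) * (nf a x : ℂ))) +
    (θ0 * (1 - z)) ^ n * (Complex.exp (-((θ0 * (1 - z)) * (nf a x : ℂ))) *
      (-(-θ0 * (nf a x : ℂ)))))

private theorem kg_deriv {n M : ℕ} (a : Fin M → Fin n → ℝ) (κ θ0 z : ℂ) (x : Fin n → ℝ) :
    HasDerivAt (fun z => kg a κ θ0 z x) (kd a κ θ0 z x) z := by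
  have h0 : HasDerivAt (fun z : ℂ => θ0 * (1 - z)) (-θ0) z := by
    have := ((hasDerivAt_id z).const_sub 1).const_mul θ0
    simpa using this
  have h1 : HasDerivAt (fun z : ℂ => (θ0 * (1 - z)) ^ n)
      (n * (θ0 * (1 - z)) ^ (n - 1) * (-θ0)) z := h0.pow n
  have h2 : HasDerivAt (fun z : ℂ => Complex.exp (-((θ0 * (1 - z)) * (nf a x : ℂ))))
      (Complex.exp (-((θ0 * (1 - z)) * (nf a x : ℂ))) * (-(-θ0 * (nf a x : ℂ)))) z :=
    (h0.mul_const (nf a x : ℂ)).neg.cexp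
  exact (h1.mul h2).const_mul κ

private theorem kg_cont {n M : ℕ} (a : Fin M → Fin n → ℝ) (κ θ0 z : ℂ) :
    Continuous (kg a κ θ0 z) := by
  have h := nf_cont a
  unfold kg
  exact continuous_const.mul (continuous_const.mul (Complex.continuous_exp.comp
    (continuous_const.mul (Complex.continuous_ofReal.comp h)).neg))

private theorem kd_cont {n M : ℕ} (a : Fin M → Fin n → ℝ) (κ θ0 z : ℂ) :
    Continuous (kd a κ θ0 z) := by
  have h : Continuous fun x => (nf a x : ℂ) := Complex.continuous_ofReal.comp (nf_cont a)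
  have he : Continuous fun x => Complex.exp (-((θ0 * (1 - z)) * (nf a x : ℂ))) :=
    Complex.continuous_exp.comp (continuous_const.mul h).neg
  unfold kd
  exact continuous_const.mul ((continuous_const.mul he).add (continuous_const.mul
    (he.mul (continuous_const.mul h).neg)))

private theorem kg_bd {n M : ℕ} (a : Fin M → Fin n → ℝ) (κ : ℂ) {θ0 z : ℂ}
    (h : ‖θ0 * (1 - z) - 1‖ ≤ 1 / 8) (x : Fin n → ℝ) :
    ‖kg a κ θ0 z x‖ ≤ ‖κ‖ * 2 ^ n * Real.exp (-(1 / 2 * nf a x)) := by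
  unfold kg
  rw [norm_mul, norm_mul, norm_pow]
  have h1 := nexp h (nf_nonneg a x)
  have h2 : Real.exp (-(7 / 8 * nf a x)) ≤ Real.exp (-(1 / 2 * nf a x)) :=
    Real.exp_le_exp.2 (by linarith [nf_nonneg a x])
  have h3 : ‖θ0 * (1 - z)‖ ^ n ≤ 2 ^ n := pow_le_pow_left₀ (norm_nonneg _) (nrm_le h) n
  rw [mul_assoc ‖κ‖]
  refine mul_le_mul_of_nonneg_left ?_ (norm_nonneg _)
  exact mul_le_mul h3 (h1.trans h2) (norm_nonneg _) (by positivity)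

private theorem kd_bd {n M : ℕ} (a : Fin M → Fin n → ℝ) (κ : ℂ) {θ0 z : ℂ} (h0 : ‖θ0‖ ≤ 2)
    (h : ‖θ0 * (1 - z) - 1‖ ≤ 1 / 8) (x : Fin n → ℝ) :
    ‖kd a κ θ0 z x‖ ≤ ‖κ‖ * (2 ^ n * 2 * (n + 3)) * Real.exp (-(1 / 2 * nf a x)) := by
  have hN := nf_nonneg a x
  have h1 := nexp h hN
  have h2 : Real.exp (-(7 / 8 * nf a x)) ≤ Real.exp (-(1 / 2 * nf a x)) :=
    Real.exp_le_exp.2 (by linarith)
  have h3 : ‖θ0 * (1 - z)‖ ^ n ≤ 2 ^ n := pow_le_pow_left₀ (norm_nonneg _) (nrm_le h) n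
  have h4 : ‖θ0 * (1 - z)‖ ^ (n - 1) ≤ 2 ^ n :=
    (pow_le_pow_left₀ (norm_nonneg _) (nrm_le h) (n - 1)).trans
      (pow_le_pow_right₀ (by norm_num) (Nat.sub_le n 1))
  have h5 := mul_exp_le hN
  obtain ⟨e, he⟩ : ∃ e : ℂ, e = Complex.exp (-((θ0 * (1 - z)) * (nf a x : ℂ))) := ⟨_, rfl⟩
  have hp2 : (0 : ℝ) < 2 ^ n := by positivity
  unfold kd
  rw [← he]
  rw [← he] at h1
  rw [norm_mul, mul_assoc ‖κ‖]
  refine mul_le_mul_of_nonneg_left ?_ (norm_nonneg _)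
  refine (norm_add_le _ _).trans ?_
  have a1 : ‖(n * (θ0 * (1 - z)) ^ (n - 1) * (-θ0)) * e‖ ≤
      n * 2 ^ n * 2 * Real.exp (-(1 / 2 * nf a x)) := by
    rw [norm_mul, norm_mul, norm_mul, norm_pow, norm_neg, Complex.norm_natCast]
    have b1 : (n : ℝ) * ‖θ0 * (1 - z)‖ ^ (n - 1) ≤ n * 2 ^ n :=
      mul_le_mul_of_nonneg_left h4 (Nat.cast_nonneg _)
    have b2 : (n : ℝ) * ‖θ0 * (1 - z)‖ ^ (n - 1) * ‖θ0‖ ≤ n * 2 ^ n * 2 :=
      mul_le_mul b1 h0 (norm_nonneg _) (by positivity)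
    exact mul_le_mul b2 (h1.trans h2) (norm_nonneg _) (by positivity)
  have a2 : ‖(θ0 * (1 - z)) ^ n * (e * (-(-θ0 * (nf a x : ℂ))))‖ ≤
      2 ^ n * (2 * (3 * Real.exp (-(1 / 2 * nf a x)))) := by
    have e1 : ‖(-(-θ0 * (nf a x : ℂ)))‖ = ‖θ0‖ * nf a x := by
      rw [norm_neg, norm_mul, norm_neg, Complex.norm_real, Real.norm_of_nonneg hN]
    rw [norm_mul, norm_mul e, norm_pow, e1]
    refine mul_le_mul h3 ?_ (by positivity) (by positivity)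
    calc ‖e‖ * (‖θ0‖ * nf a x) = ‖θ0‖ * (nf a x * ‖e‖) := by ring
      _ ≤ 2 * (nf a x * Real.exp (-(7 / 8 * nf a x))) := by
          refine mul_le_mul h0 (mul_le_mul_of_nonneg_left h1 hN) (by positivity) (by norm_num)
      _ ≤ _ := mul_le_mul_of_nonneg_left h5 (by norm_num)
  refine (add_le_add a1 a2).trans (le_of_eq ?_)
  ring

private theorem kg_int {n M : ℕ} {a : Fin M → Fin n → ℝ} (ha : Nd a) (κ : ℂ) {θ0 z : ℂ}
    (h : ‖θ0 * (1 - z) - 1‖ ≤ 1 / 8) : Integrable (kg a κ θ0 z) := by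
  refine ((hom_int ha (s := 1 / 2) (by norm_num)).1.const_mul (‖κ‖ * 2 ^ n)).mono'
    (kg_cont a κ θ0 z).aestronglyMeasurable (Filter.Eventually.of_forall fun x => ?_)
  exact kg_bd a κ h x

private theorem kg_diff {n M : ℕ} {a : Fin M → Fin n → ℝ} (ha : Nd a) (κ : ℂ) {θ0 : ℂ} {r : ℝ}
    (h0 : ‖θ0‖ ≤ 2) (h : ∀ z : ℂ, ‖z‖ ≤ r → ‖θ0 * (1 - z) - 1‖ ≤ 1 / 8)
    {f g : (Fin n → ℝ) → ℂ} (hf : TF f) (hg : TF g) :
    DifferentiableOn ℂ (fun z => ∫ x, op (kg a κ θ0 z) f x * g x) (Metric.ball 0 r) := by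
  obtain ⟨C, hC⟩ := hf.bdd
  have hC0 : 0 ≤ C := (norm_nonneg _).trans (hC 0)
  obtain ⟨W, hW⟩ : ∃ W : (Fin n → ℝ) × (Fin n → ℝ) → ℂ,
      W = fun q => f (q.1 + q.2) * g q.1 := ⟨_, rfl⟩
  have hWc : Continuous W := by
    rw [hW]
    exact (hf.1.comp (continuous_fst.add continuous_snd)).mul (hg.1.comp continuous_fst)
  have hWb : ∀ q, ‖W q‖ ≤ C * ‖g q.1‖ := by
    intro q
    rw [hW, norm_mul]
    exact mul_le_mul_of_nonneg_right (hC _) (norm_nonneg _)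
  have hE := (hom_int ha (s := 1 / 2) (by norm_num)).1
  -- integrable majorant on the product
  have hmaj : ∀ B : ℝ, Integrable (fun q : (Fin n → ℝ) × (Fin n → ℝ) =>
      C * ‖g q.1‖ * (B * Real.exp (-(1 / 2 * nf a q.2))))
      ((volume : Measure (Fin n → ℝ)).prod volume) := by
    intro B
    exact ((hg.int.norm).const_mul C).mul_prod (hE.const_mul B)
  have hball : ∀ z ∈ Metric.ball (0 : ℂ) r, ‖z‖ ≤ r := by
    intro z hz
    rw [Metric.mem_ball, dist_zero_right] at hz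
    exact hz.le
  have hint : ∀ z ∈ Metric.ball (0 : ℂ) r, Integrable
      (fun q : (Fin n → ℝ) × (Fin n → ℝ) => kg a κ θ0 z q.2 * W q)
      ((volume : Measure (Fin n → ℝ)).prod volume) := by
    intro z hz
    refine (hmaj (‖κ‖ * 2 ^ n)).mono' (((kg_cont a κ θ0 z).comp continuous_snd).mul
      hWc).aestronglyMeasurable (Filter.Eventually.of_forall fun q => ?_)
    rw [norm_mul, mul_comm]
    exact mul_le_mul (hWb q) (kg_bd a κ (h z (hball z hz)) q.2) (norm_nonneg _)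
      (mul_nonneg hC0 (norm_nonneg _))
  have hD : DifferentiableOn ℂ (fun z => ∫ q, kg a κ θ0 z q.2 * W q
      ∂((volume : Measure (Fin n → ℝ)).prod volume)) (Metric.ball 0 r) := by
    intro z hz
    refine DifferentiableAt.differentiableWithinAt ?_
    refine (hasDerivAt_integral_of_dominated_loc_of_deriv_le
      (F := fun z (q : (Fin n → ℝ) × (Fin n → ℝ)) => kg a κ θ0 z q.2 * W q)
      (F' := fun z (q : (Fin n → ℝ) × (Fin n → ℝ)) => kd a κ θ0 z q.2 * W q)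
      (bound := fun q => C * ‖g q.1‖ * (‖κ‖ * (2 ^ n * 2 * (n + 3)) *
        Real.exp (-(1 / 2 * nf a q.2))))
      (s := Metric.ball 0 r) (Metric.isOpen_ball.mem_nhds hz) ?_ (hint z hz) ?_ ?_ (hmaj _)
      ?_).2.differentiableAt
    · refine Filter.Eventually.of_forall fun z' => ?_
      exact (((kg_cont a κ θ0 z').comp continuous_snd).mul hWc).aestronglyMeasurable
    · exact (((kd_cont a κ θ0 z).comp continuous_snd).mul hWc).aestronglyMeasurable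
    · refine Filter.Eventually.of_forall fun q z' hz' => ?_
      rw [norm_mul, mul_comm]
      exact mul_le_mul (hWb q) (kd_bd a κ h0 (h z' (hball z' hz')) q.2) (norm_nonneg _)
        (mul_nonneg hC0 (norm_nonneg _))
    · refine Filter.Eventually.of_forall fun q z' _ => ?_
      exact (kg_deriv a κ θ0 z' q.2).mul_const (W q)
  refine hD.congr fun z hz => ?_
  have h1 := integral_prod (μ := (volume : Measure (Fin n → ℝ))) (ν := volume) _ (hint z hz)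
  rw [h1]
  refine integral_congr_ae (Filter.Eventually.of_forall fun x => ?_)
  show op (kg a κ θ0 z) f x * g x = ∫ y, kg a κ θ0 z y * W (x, y)
  unfold op
  rw [← integral_mul_const]
  refine integral_congr_ae (Filter.Eventually.of_forall fun y => ?_)
  rw [hW]
  show kg a κ θ0 z y * f (x + y) * g x = kg a κ θ0 z y * (f (x + y) * g x)
  ring

theorem zlip {p : ℝ} (hp : 1 < p) (hp2 : p ≤ 2) :
    ∃ r : ℝ, 0 < r ∧ r ≤ 1 ∧ ∀ (n M : ℕ) (a : Fin M → Fin n → ℝ), Nd a →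
      ∀ τ ε : ℝ, |τ| ≤ r → 0 < ε → ε < r →
        NB p (2 * ε / r * ((∫ x, Real.exp (-nf a x)) * (‖1 + τ * Complex.I‖ ^ n)⁻¹))
          (fun y => dk (1 + ε) (fun x : Fin n → ℝ =>
              Complex.exp (-((1 + τ * Complex.I) * (nf a x : ℂ)))) y -
            Complex.exp (-((1 + τ * Complex.I) * (nf a y : ℂ)))) := by
  obtain ⟨r0, hr0, hr08, hg1⟩ := g1 hp hp2
  refine ⟨r0 / 4, by positivity, by linarith, ?_⟩
  intro n M a ha τ ε hτ hε hεr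
  have hp0 : 0 ≤ p := by linarith
  obtain ⟨Z, hZ⟩ : ∃ Z : ℝ, Z = ∫ x, Real.exp (-nf a x) := ⟨_, rfl⟩
  have hZ0 : 0 < Z := by
    have h := (hom_int ha (s := 1) one_pos).2
    simp only [one_mul] at h
    rw [hZ]
    exact h
  rw [← hZ]
  obtain ⟨θ0, hθ0⟩ : ∃ θ0 : ℂ, θ0 = 1 + τ * Complex.I := ⟨_, rfl⟩
  rw [← hθ0]
  have hre : θ0.re = 1 := by
    rw [hθ0]
    simp
  have hθne : θ0 ≠ 0 := by
    intro h
    rw [h] at hre
    simp at hre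
  have hb : ∀ z : ℂ, ‖z‖ ≤ r0 / 4 → ‖θ0 * (1 - z) - 1‖ ≤ r0 := by
    intro z hz
    rw [hθ0]
    exact th_bd hr08 hτ hz
  have hb8 : ∀ z : ℂ, ‖z‖ ≤ r0 / 4 → ‖θ0 * (1 - z) - 1‖ ≤ 1 / 8 :=
    fun z hz => (hb z hz).trans hr08
  have hθ2 : ‖θ0‖ ≤ 2 := by
    have h := hb8 0 (by rw [norm_zero]; positivity)
    rw [sub_zero, mul_one] at h
    exact nrm_le h
  have hNB : ∀ z : ℂ, ‖z‖ ≤ r0 / 4 → NB p 1 (kg a ((Z : ℂ)⁻¹) θ0 z) := by
    intro z hz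
    have h1 := zker ha hp (hb8 z hz) (hg1 _ (hb z hz))
    rw [← hZ] at h1
    have h2 := nb_smul hp0 hZ0.le h1 ((Z : ℂ)⁻¹)
    have h3 : Z * ‖((Z : ℂ)⁻¹)‖ = 1 := by
      rw [norm_inv, Complex.norm_real, Real.norm_of_nonneg hZ0.le, mul_inv_cancel₀ hZ0.ne']
    rw [h3] at h2
    exact h2
  have hε1 : 0 < 1 + ε := by linarith
  have hε' : ε / (1 + ε) ≤ ε := by
    rw [div_le_iff₀ hε1]
    nlinarith
  have hS := schw hp (by positivity : (0 : ℝ) < r0 / 4)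
    (fun z hz => kg_int ha ((Z : ℂ)⁻¹) (hb8 z hz)) hNB
    (fun f g hf hg => kg_diff ha ((Z : ℂ)⁻¹) hθ2 hb8 hf hg)
    (ε := ε / (1 + ε)) (by positivity) (lt_of_le_of_lt hε' hεr)
  have hS2 := nb_smul hp0 (by positivity) hS ((Z : ℂ) * (θ0 ^ n)⁻¹)
  have hK : ‖(Z : ℂ) * (θ0 ^ n)⁻¹‖ = Z * (‖θ0‖ ^ n)⁻¹ := by
    rw [norm_mul, norm_inv, norm_pow, Complex.norm_real, Real.norm_of_nonneg hZ0.le]
  rw [hK] at hS2
  have hS3 : NB p (2 * ε / (r0 / 4) * (Z * (‖θ0‖ ^ n)⁻¹)) fun y =>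
      (Z : ℂ) * (θ0 ^ n)⁻¹ * (kg a ((Z : ℂ)⁻¹) θ0 ((ε / (1 + ε) : ℝ) : ℂ) y -
        kg a ((Z : ℂ)⁻¹) θ0 0 y) := by
    refine nb_mono hp0 ?_ hS2
    refine mul_le_mul_of_nonneg_right ?_ (by positivity)
    refine div_le_div_of_nonneg_right ?_ (by positivity)
    linarith
  have hfun : (fun y : Fin n → ℝ => (Z : ℂ) * (θ0 ^ n)⁻¹ *
      (kg a ((Z : ℂ)⁻¹) θ0 ((ε / (1 + ε) : ℝ) : ℂ) y - kg a ((Z : ℂ)⁻¹) θ0 0 y)) =
      fun y => dk (1 + ε) (fun x : Fin n → ℝ => Complex.exp (-(θ0 * (nf a x : ℂ)))) y -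
        Complex.exp (-(θ0 * (nf a y : ℂ))) := by
    funext y
    have hZc : (Z : ℂ) ≠ 0 := by exact_mod_cast hZ0.ne'
    have hθn : θ0 ^ n ≠ 0 := pow_ne_zero n hθne
    have hεc : (1 : ℂ) + (ε : ℂ) ≠ 0 := by exact_mod_cast hε1.ne'
    have h1 : (1 : ℂ) - ((ε / (1 + ε) : ℝ) : ℂ) = (1 + (ε : ℂ))⁻¹ := by
      push_cast
      field_simp
      ring
    have h2 : nf a ((1 + ε)⁻¹ • y) = (1 + ε)⁻¹ * nf a y := by
      rw [nf_smul, abs_of_pos (inv_pos.2 hε1)]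
    unfold dk kg
    beta_reduce
    rw [h1, sub_zero, mul_one, h2, Module.finrank_fin_fun]
    have h3 : θ0 * (1 + (ε : ℂ))⁻¹ * (nf a y : ℂ) =
        θ0 * (((1 + ε)⁻¹ * nf a y : ℝ) : ℂ) := by
      push_cast
      ring
    rw [h3]
    have h4 : ((((1 + ε) ^ n)⁻¹ : ℝ) : ℂ) = ((1 + (ε : ℂ)) ^ n)⁻¹ := by
      push_cast
      rfl
    rw [h4, mul_pow, inv_pow]
    field_simp
  rw [hfun] at hS3
  exact hS3

end Pool.Agent.MOZ
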